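import Pool.Agent.U198.NW.Est
import Pool.Agent.U198.AC.Ts

/-!
# Networks: bounds for the averages
-/

set_option autoImplicit false
set_option linter.unusedVariables false

namespace Pool.Agent.U198.NW

open Finset Filter Topology Pool.Agent.N929.EG Pool.Agent.N169.EG
open scoped Classical

noncomputable section

theorem one_add_sum_le {k : ℕ} (a : Fin k → ℝ) (ha : ∀ e, 0 ≤ a e) (s : Finset (Fin k)) :
    1 + ∑ e ∈ s, a e ≤ ∏ e ∈ s, (1 + a e) := by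
  induction s using Finset.induction_on with
  | empty => simp
  | insert e s he ih =>
    rw [sum_insert he, prod_insert he]
    have h1 : 0 ≤ ∑ e ∈ s, a e := sum_nonneg fun e _ => ha e
    have h2 := ha e
    nlinarith [mul_nonneg h2 h1]

variable {Ver : Type} [AddCommGroup Ver] {p k : ℕ} {A : Ver → Ver → Prop} {X : Geo Ver}
variable {src tgt : Fin k → Fin (p + 1)} {Q : Net Ver (p + 1) k → Prop} {Z : Rul X A}
  {b : ℕ} {hQ : Ins Q} {hb : Bdd X A src tgt Q b}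

/-- the networks of size at most `N` -/
def KK (X : Geo Ver) (A : Ver → Ver → Prop) (src tgt : Fin k → Fin (p + 1))
    (Q : Net Ver (p + 1) k → Prop) (b N : ℕ) : Finset (Net Ver (p + 1) k) :=
  (range (N + 1)).biUnion (KN X A src tgt Q b)

theorem mem_KK (hb : Bdd X A src tgt Q b) {N : ℕ} {w : Net Ver (p + 1) k} :
    w ∈ KK X A src tgt Q b N ↔ Ok A src tgt Q w ∧ lenN w ≤ N := by
  unfold KK
  rw [mem_biUnion]
  constructor
  · rintro ⟨n, hn, hw⟩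
    rw [mem_KN hb] at hw
    rw [mem_range] at hn
    exact ⟨hw.1, by omega⟩
  · rintro ⟨h1, h2⟩
    exact ⟨lenN w, by rw [mem_range]; omega, (mem_KN hb).2 ⟨h1, rfl⟩⟩

/-- the sum over the sets of strands -/
theorem sum_J {k : ℕ} (b x f : Fin k → ℝ) (l : Fin k → ℕ) :
    ∑ J : Finset (Fin k), (∏ e, tJ J b x e ^ l e) * ∏ e ∈ J, f e =
      ∏ e, (x e ^ l e + b e ^ l e * f e) := by
  have h1 : ∏ e, (x e ^ l e + b e ^ l e * f e) = ∏ e, (b e ^ l e * f e + x e ^ l e) :=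
    prod_congr rfl fun e _ => add_comm _ _
  rw [h1, Finset.prod_add, Finset.powerset_univ]
  refine sum_congr rfl fun J _ => ?_
  rw [prod_mul_distrib]
  have h2 : ∏ e, tJ J b x e ^ l e = (∏ e ∈ J, b e ^ l e) * ∏ e ∈ univ \ J, x e ^ l e := by
    rw [← prod_sdiff (subset_univ J), mul_comm]
    congr 1
    · exact prod_congr rfl fun e he => by unfold tJ; rw [if_pos he]
    · exact prod_congr rfl fun e he => by
        unfold tJ
        rw [if_neg (Finset.mem_sdiff.1 he).2]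
  rw [h2]
  ring

/-- the bound for the average -/
theorem avg1 (hZ : Inv Z) {M κ : ℕ} (hM : 1 ≤ M) (hκ : 1 ≤ κ) {N N' : ℕ} {ι : Type} [Fintype ι]
    [Nonempty ι] {Λ : ι → Finset (List Ver × List Ver)}
    {st : ι → Net Ver (p + 1) k → Net Ver (p + 1) k}
    {fl : ι → Net Ver (p + 1) k → Finset (List Ver × List Ver) → Net Ver (p + 1) k}
    (hL : ∀ i, Fam (sysN Z hQ hb) (Λ i)) (hf : ∀ i, Fill (sysN Z hQ hb) (Λ i) (st i) (fl i))
    (hT : ∀ i, ∀ w ∈ TT (sysN Z hQ hb) (Λ i) (fl i) N, lenN w ≤ N')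
    (hΛ : SelP κ ((sysN Z hQ hb).U N') Λ) {c₀ : ℝ} (hc : c₀ ≤ 1 / (2 * M * κ : ℝ))
    (g : (Fin (p + 1) → Ver) → ℂ) {h : (Fin (p + 1) → Ver) → Fin k → Ver → ℝ}
    (h0 : ∀ v e x, 0 ≤ h v e x ∧ h v e x ≤ 1) (z : Fin k → ℂ) (x : Fin k → ℝ)
    (hx : ∀ e, Adm Z.s c₀ (z e) (x e)) :
    ‖(Fintype.card ι : ℂ)⁻¹ * ∑ i, PF Z hQ hb (Λ i) g h N z‖ ≤
      ∑ w ∈ KK X A src tgt Q b N', ‖g w.1‖ * ∏ e, (x e ^ ((w.2 e).length + 1) +
        BB Z.s c₀ (z e) ^ ((w.2 e).length + 1) * fac Z M κ (wlk src w e)) := by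
  have hcard : (0 : ℝ) < Fintype.card ι := by exact_mod_cast Fintype.card_pos
  have hb0 : ∀ e, 0 ≤ (fun e => BB Z.s c₀ (z e)) e := fun e => BB_nonneg _ _ _
  have hx0 : ∀ e, 0 ≤ x e := fun e => (hx e).1.le
  have hm0 : ∀ (J : Finset (Fin k)) (w : Net Ver (p + 1) k),
      0 ≤ mon (tJ J (fun e => BB Z.s c₀ (z e)) x) w := fun J w => mon_nonneg (tJ_nonneg hb0 hx0) w
  refine (Pool.Agent.N738.AC.avg_le _ _ fun i =>
    PF_le hZ.sub (hL i) (hf i) g h0 N z x c₀ hx).trans ?_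
  have e1 : ∀ i, ∑ w ∈ TT (sysN Z hQ hb) (Λ i) (fl i) N, ‖g w.1‖ *
      ∑ J : Finset (Fin k), (if Bad Z hQ hb (Λ i) c₀ J w then
        mon (tJ J (fun e => BB Z.s c₀ (z e)) x) w else 0) ≤
      ∑ w ∈ KK X A src tgt Q b N', ‖g w.1‖ *
      ∑ J : Finset (Fin k), (if Bad Z hQ hb (Λ i) c₀ J w then
        mon (tJ J (fun e => BB Z.s c₀ (z e)) x) w else 0) := by
    intro i
    refine sum_le_sum_of_subset_of_nonneg (fun w hw => ?_) fun w _ _ =>
      mul_nonneg (norm_nonneg _) (sum_nonneg fun J _ => by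
        split_ifs
        · exact hm0 J w
        · exact le_rfl)
    rw [mem_KK hb]
    have h1 : w ∈ KN X A src tgt Q b _ := TT_K (hf i) hw
    rw [mem_KN hb] at h1
    exact ⟨h1.1, hT i w hw⟩
  rw [inv_mul_le_iff₀ hcard]
  refine (sum_le_sum fun i _ => e1 i).trans ?_
  rw [sum_comm, mul_sum]
  refine sum_le_sum fun w hw => ?_
  have hw' := (mem_KK hb).1 hw
  have hwK : w ∈ KN X A src tgt Q b (lenN w) := (mem_KN hb).2 ⟨hw'.1, rfl⟩
  rw [← mul_sum, sum_comm]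
  have e2 : ∀ J : Finset (Fin k), ∑ i, (if Bad Z hQ hb (Λ i) c₀ J w then
      mon (tJ J (fun e => BB Z.s c₀ (z e)) x) w else 0) ≤
      Fintype.card ι * (mon (tJ J (fun e => BB Z.s c₀ (z e)) x) w *
        ∏ e ∈ J, fac Z M κ (wlk src w e)) := by
    intro J
    rw [← sum_filter, sum_const, nsmul_eq_mul]
    have h1 := frac (hb := hb) (hQ := hQ) hZ hM hκ hΛ hc hwK hw'.2 J
    calc ((univ.filter (fun i => Bad Z hQ hb (Λ i) c₀ J w)).card : ℝ) *
          mon (tJ J (fun e => BB Z.s c₀ (z e)) x) w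
        ≤ ((∏ e ∈ J, fac Z M κ (wlk src w e)) * Fintype.card ι) *
          mon (tJ J (fun e => BB Z.s c₀ (z e)) x) w := mul_le_mul_of_nonneg_right h1 (hm0 J w)
      _ = _ := by ring
  have e3 := sum_le_sum fun J (_ : J ∈ (univ : Finset (Finset (Fin k)))) => e2 J
  rw [← mul_sum] at e3
  have e4 := sum_J (fun e => BB Z.s c₀ (z e)) x (fun e => fac Z M κ (wlk src w e))
    (fun e => (w.2 e).length + 1)
  unfold mon at e3 ⊢
  rw [e4] at e3
  calc ‖g w.1‖ * _ ≤ ‖g w.1‖ * _ := mul_le_mul_of_nonneg_left e3 (norm_nonneg _)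
    _ = _ := by ring

/-- sums over the networks with polynomial weights -/
theorem avg2 (hZ : Inv Z) (hC : Conn src tgt) (h0 : ∀ N, Q N → N.1 0 = 0)
    {b : ℕ} (hb : Bdd X A src tgt Q b)
    (g : (Fin (p + 1) → Ver) → ℂ) {C₀ : ℝ} {q : ℕ} (hC₀ : 0 ≤ C₀)
    (hg : ∀ w, Ok A src tgt Q w → ‖g w.1‖ ≤ C₀ * ((lenN w : ℝ) + 1) ^ q)
    (H : Fin k → List Ver → ℝ) (hH : ∀ e u, 0 ≤ H e u) (N : ℕ) (S : Finset (Net Ver (p + 1) k))
    (hS : S ⊆ KK X A src tgt Q b N) :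
    ∑ w ∈ S, ‖g w.1‖ * ∏ e, H e (wlk src w e) ≤
      C₀ * ((X.g 1 : ℝ) ^ k * ∏ e, ∑ n ∈ range (N + 1), ∑ u ∈ Kw X A n,
        (((u.length : ℝ) + 1) ^ q * H e u)) := by
  have h1 := net_sum hZ hC h0 S (fun w hw => ((mem_KK hb).1 (hS hw)).1) N
    (fun w hw e => by
      have := ((mem_KK hb).1 (hS hw)).2
      have h2 := len_le w e
      omega) (fun e u => ((u.length : ℝ) + 1) ^ q * H e u)
    (fun e u => mul_nonneg (by positivity) (hH e u))
  refine le_trans ?_ (mul_le_mul_of_nonneg_left h1 hC₀)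
  rw [mul_sum]
  refine sum_le_sum fun w hw => ?_
  have hw' := ((mem_KK hb).1 (hS hw)).1
  rw [prod_mul_distrib, ← mul_assoc]
  refine mul_le_mul_of_nonneg_right ((hg w hw').trans ?_) (prod_nonneg fun e _ => hH e _)
  refine mul_le_mul_of_nonneg_left ?_ hC₀
  rw [prod_pow]
  refine pow_le_pow_left₀ (by positivity) ?_ q
  have h2 := one_add_sum_le (fun e => (((w.2 e).length + 1 : ℕ) : ℝ))
    (fun e => Nat.cast_nonneg _) univ
  unfold lenN
  push_cast at h2 ⊢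
  rw [add_comm]
  refine h2.trans (le_of_eq (prod_congr rfl fun e _ => ?_))
  rw [wlk_len]
  push_cast
  ring

/-- the sum over one strand -/
theorem single (hZ : Inv Z) {μ : ℝ} (hμ : 1 ≤ μ)
    (hgr : ∀ (q : ℕ) (x : ℝ), 0 ≤ x → μ * x < 1 →
      Summable (fun n => (((Kw X A n).card : ℝ) * ((n : ℝ) + 1) ^ q) * x ^ n))
    {M κ : ℕ} {θ C' θ₂ : ℝ} (hM : 1 ≤ M) (hκ : 1 ≤ κ) (hθ : 0 < θ) (hC' : 0 ≤ C')
    (hθM : Real.exp (-(1 / (2 * M * κ : ℝ))) ≤ θ) (h20 : 0 ≤ θ₂) (h21 : θ₂ < 1)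
    (hp : ∀ n : ℕ, (((Kw X A n).filter (fun u => M * (B Z u).card ≤ n)).card : ℝ) ≤
      C' * (θ * μ) ^ n) (q : ℕ) (Y : ℝ) (hY : 0 ≤ Y) (hYμ : μ * Y < 1) :
    ∃ E : ℝ, 0 ≤ E ∧ ∀ (x b : ℝ), 0 ≤ x → x ≤ Y → 0 ≤ b → θ * μ * b ≤ θ₂ → ∀ N : ℕ,
      ∑ n ∈ range (N + 1), ∑ u ∈ Kw X A n,
        (((u.length : ℝ) + 1) ^ q * (x ^ u.length + b ^ u.length * fac Z M κ u)) ≤ E := by
  have hμ0 : 0 < μ := by linarith
  obtain ⟨y, hy⟩ : ∃ y : ℝ, y = θ₂ / μ := ⟨_, rfl⟩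
  have hy0 : 0 ≤ y := by rw [hy]; positivity
  have hyμ : μ * y < 1 := by
    rw [hy, mul_div_cancel₀ _ hμ0.ne']
    exact h21
  have s1 := hgr q Y hY hYμ
  have s2 := hgr q y hy0 hyμ
  have s3 := Pool.Agent.N738.AC.sum_pp q θ₂ h20 h21
  obtain ⟨E1, hE1⟩ : ∃ E : ℝ, E = ∑' n, (((Kw X A n).card : ℝ) * ((n : ℝ) + 1) ^ q) * Y ^ n :=
    ⟨_, rfl⟩
  obtain ⟨E2, hE2⟩ : ∃ E : ℝ, E = ∑' n, (((Kw X A n).card : ℝ) * ((n : ℝ) + 1) ^ q) * y ^ n :=
    ⟨_, rfl⟩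
  obtain ⟨E3, hE3⟩ : ∃ E : ℝ, E = ∑' n : ℕ, ((n : ℝ) + 1) ^ q * θ₂ ^ n := ⟨_, rfl⟩
  have hE10 : 0 ≤ E1 := by rw [hE1]; exact tsum_nonneg fun n => by positivity
  have hE20 : 0 ≤ E2 := by rw [hE2]; exact tsum_nonneg fun n => by positivity
  have hE30 : 0 ≤ E3 := by rw [hE3]; exact tsum_nonneg fun n => by positivity
  obtain ⟨D, hD⟩ : ∃ D : ℝ, D = Real.exp ((c0 Z : ℝ) / κ) := ⟨_, rfl⟩
  have hD0 : 0 ≤ D := by rw [hD]; positivity
  refine ⟨2 ^ q * (Y * E1) + 2 ^ q * (D * (y * E2)) + 2 ^ q * (C' * (y / θ * E3)), by positivity,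
    fun x b hx hxY hb hbθ N => ?_⟩
  have hby : Real.exp (-(1 / (2 * M * κ : ℝ))) * b ≤ y := by
    rw [hy, le_div_iff₀ hμ0]
    have : Real.exp (-(1 / (2 * M * κ : ℝ))) * b * μ ≤ θ * b * μ := by gcongr
    linarith
  have hby' : b ≤ y / θ := by
    rw [le_div_iff₀ hθ, hy, le_div_iff₀ hμ0]
    linarith
  have key : ∀ n ∈ range (N + 1), ∑ u ∈ Kw X A n,
      (((u.length : ℝ) + 1) ^ q * (x ^ u.length + b ^ u.length * fac Z M κ u)) ≤
      2 ^ q * (Y * ((((Kw X A n).card : ℝ) * ((n : ℝ) + 1) ^ q) * Y ^ n)) +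
      2 ^ q * (D * (y * ((((Kw X A n).card : ℝ) * ((n : ℝ) + 1) ^ q) * y ^ n))) +
      2 ^ q * (C' * (y / θ * (((n : ℝ) + 1) ^ q * θ₂ ^ n))) := by
    intro n _
    have hlen : ∀ u ∈ Kw X A n, u.length = n + 1 := fun u hu => ((mem_K Z).1 hu).1
    have hq2 : ((n : ℝ) + 1 + 1) ^ q ≤ 2 ^ q * ((n : ℝ) + 1) ^ q := by
      rw [← mul_pow]
      refine pow_le_pow_left₀ (by positivity) ?_ q
      have : (0 : ℝ) ≤ n := Nat.cast_nonneg n
      linarith
    have e1 : ∀ u ∈ Kw X A n,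
        ((u.length : ℝ) + 1) ^ q * (x ^ u.length + b ^ u.length * fac Z M κ u) ≤
        (2 ^ q * ((n : ℝ) + 1) ^ q) * (Y * Y ^ n + D * (y * y ^ n) +
          if M * (B Z u).card ≤ n then b * b ^ n else 0) := by
      intro u hu
      rw [hlen u hu]
      push_cast
      have hf0 := fac_nonneg (Z := Z) M κ u
      refine mul_le_mul hq2 ?_ (by positivity) (by positivity)
      have h1 : x ^ (n + 1) ≤ Y * Y ^ n := by
        rw [← pow_succ']
        exact pow_le_pow_left₀ hx hxY _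
      have h2 : b ^ (n + 1) * fac Z M κ u ≤ D * (y * y ^ n) +
          if M * (B Z u).card ≤ n then b * b ^ n else 0 := by
        unfold fac
        rw [hlen u hu, mul_add]
        refine add_le_add ?_ (le_of_eq ?_)
        · rw [← hD, ← pow_succ']
          calc b ^ (n + 1) * (D * Real.exp (-(1 / (2 * M * κ : ℝ))) ^ (n + 1))
              = D * (Real.exp (-(1 / (2 * M * κ : ℝ))) * b) ^ (n + 1) := by
                rw [mul_pow]; ring
            _ ≤ D * y ^ (n + 1) := by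
                refine mul_le_mul_of_nonneg_left ?_ hD0
                exact pow_le_pow_left₀ (by positivity) hby _
        · have h3 : Poor Z M u ↔ M * (B Z u).card ≤ n := by
            unfold Poor
            rw [hlen u hu]
            omega
          by_cases h4 : M * (B Z u).card ≤ n
          · rw [if_pos h4, if_pos (h3.2 h4), mul_one, pow_succ']
          · rw [if_neg h4, if_neg (fun h => h4 (h3.1 h)), mul_zero]
      linarith
    refine (sum_le_sum e1).trans ?_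
    rw [← mul_sum, sum_add_distrib, sum_const, nsmul_eq_mul, ← sum_filter, sum_const,
      nsmul_eq_mul]
    have e2 : (((Kw X A n).filter (fun u => M * (B Z u).card ≤ n)).card : ℝ) * (b * b ^ n) ≤
        C' * (y / θ * θ₂ ^ n) := by
      calc (((Kw X A n).filter (fun u => M * (B Z u).card ≤ n)).card : ℝ) * (b * b ^ n)
          ≤ (C' * (θ * μ) ^ n) * (b * b ^ n) := mul_le_mul_of_nonneg_right (hp n) (by positivity)
        _ = C' * (b * (θ * μ * b) ^ n) := by rw [mul_pow (θ * μ) b n]; ring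
        _ ≤ C' * (y / θ * θ₂ ^ n) := by
            refine mul_le_mul_of_nonneg_left ?_ hC'
            exact mul_le_mul hby' (pow_le_pow_left₀ (by positivity) hbθ n) (by positivity)
              (by positivity)
    have h5 := mul_le_mul_of_nonneg_left e2 (show (0 : ℝ) ≤ 2 ^ q * ((n : ℝ) + 1) ^ q by positivity)
    nlinarith [h5]
  refine (sum_le_sum key).trans ?_
  rw [sum_add_distrib, sum_add_distrib, ← mul_sum, ← mul_sum, ← mul_sum, ← mul_sum, ← mul_sum,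
    ← mul_sum, ← mul_sum, ← mul_sum]
  have t1 : ∑ n ∈ range (N + 1), (((Kw X A n).card : ℝ) * ((n : ℝ) + 1) ^ q) * Y ^ n ≤ E1 := by
    rw [hE1]; exact s1.sum_le_tsum _ fun n _ => by positivity
  have t2 : ∑ n ∈ range (N + 1), (((Kw X A n).card : ℝ) * ((n : ℝ) + 1) ^ q) * y ^ n ≤ E2 := by
    rw [hE2]; exact s2.sum_le_tsum _ fun n _ => by positivity
  have t3 : ∑ n ∈ range (N + 1), ((n : ℝ) + 1) ^ q * θ₂ ^ n ≤ E3 := by
    rw [hE3]; exact s3.sum_le_tsum _ fun n _ => by positivity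
  gcongr

end

end Pool.Agent.U198.NW
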