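import Pool.Agent.U198.NW.Inj

/-!
# Networks: sums over the classes
-/

set_option autoImplicit false
set_option linter.unusedVariables false

namespace Pool.Agent.U198.NW

open Finset Filter Topology Pool.Agent.N929.EG Pool.Agent.N169.EG
open scoped Classical

noncomputable section

theorem diff_prod {ι E : Type} [NormedAddCommGroup E] [NormedSpace ℂ E] (u : Finset ι)
    (f : ι → E → ℂ) (hf : ∀ i, Differentiable ℂ (f i)) :
    Differentiable ℂ (fun z => ∏ i ∈ u, f i z) := by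
  induction u using Finset.induction_on with
  | empty => simp
  | insert i u hi ih =>
    simp only [prod_insert hi]
    exact (hf i).mul ih

/-! ### general systems of moves -/

section ts

variable {α σ : Type}

/-- the objects of size at most `N` without occupied slots -/
def Co (Y : TS α σ) (L : Finset σ) (N : ℕ) : Finset α :=
  ((range (N + 1)).biUnion Y.K).filter (fun w => Oc Y L w = ∅)

theorem mem_Co {Y : TS α σ} {L : Finset σ} {N : ℕ} {w : α} :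
    w ∈ Co Y L N ↔ Em Y L w ∧ Y.len w ≤ N := by
  unfold Co Em
  rw [mem_filter, mem_biUnion]
  constructor
  · rintro ⟨⟨n, hn, hw⟩, ho⟩
    have h1 := Y.len_K n w hw
    rw [mem_range] at hn
    refine ⟨⟨by rw [h1]; exact hw, ho⟩, by omega⟩
  · rintro ⟨⟨hw, ho⟩, hN⟩
    exact ⟨⟨Y.len w, by rw [mem_range]; omega, hw⟩, ho⟩

/-- the objects of the classes -/
def TT (Y : TS α σ) (L : Finset σ) (fl : α → Finset σ → α) (N : ℕ) : Finset α :=
  ((Co Y L N).sigma (fun w => (Sl Y L w).powerset)).image (fun x => fl x.1 x.2)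

variable {Y : TS α σ} {L : Finset σ} {st : α → α} {fl : α → Finset σ → α}

theorem sum_TT (hf : Fill Y L st fl) (N : ℕ) {M : Type} [AddCommMonoid M] (F : α → M) :
    ∑ w ∈ TT Y L fl N, F w = ∑ w ∈ Co Y L N, ∑ U ∈ (Sl Y L w).powerset, F (fl w U) := by
  unfold TT
  rw [sum_image, sum_sigma]
  rintro ⟨w, U⟩ hx ⟨w', U'⟩ hx' hxx
  rw [mem_coe, mem_sigma, mem_powerset] at hx hx'
  simp only at hx hx' hxx
  have hw := (mem_Co.1 hx.1).1
  have hw' := (mem_Co.1 hx'.1).1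
  have e1 : w = w' := by
    rw [← hf.st_fl w U hw hx.2, ← hf.st_fl w' U' hw' hx'.2, hxx]
  have e2 : U = U' := by
    rw [← hf.fl_oc w U hw hx.2, ← hf.fl_oc w' U' hw' hx'.2, hxx]
  subst e1
  subst e2
  rfl

theorem TT_K (hf : Fill Y L st fl) {N : ℕ} {w : α} (hw : w ∈ TT Y L fl N) :
    w ∈ Y.K (Y.len w) := by
  unfold TT at hw
  rw [mem_image] at hw
  obtain ⟨⟨w, U⟩, hx, rfl⟩ := hw
  rw [mem_sigma, mem_powerset] at hx
  simp only at hx ⊢
  have h := hf.fl_K w U (mem_Co.1 hx.1).1 hx.2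
  rw [Y.len_K _ _ h]
  exact h

theorem K_TT (hf : Fill Y L st fl) {N n : ℕ} (hn : n ≤ N) {w : α} (hw : w ∈ Y.K n) :
    w ∈ TT Y L fl N := by
  have h0 := Y.len_K n w hw
  have hw' : w ∈ Y.K (Y.len w) := by rw [h0]; exact hw
  unfold TT
  rw [mem_image]
  refine ⟨⟨st w, Oc Y L w⟩, ?_, hf.fl_st w hw'⟩
  rw [mem_sigma, mem_powerset]
  simp only
  refine ⟨mem_Co.2 ⟨hf.st_em w hw', ?_⟩, ?_⟩
  · have := hf.st_len w hw'
    omega
  · rw [hf.st_sl w hw']
    intro q hq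
    rw [mem_Oc] at hq
    rw [mem_Sl]
    exact ⟨hq.1, Or.inr hq.2⟩

theorem TT_len (hf : Fill Y L st fl) {N C : ℕ}
    (hC : ∀ n, ∀ w ∈ Y.K n, (Y.S w).card ≤ C * n) {w : α} (hw : w ∈ TT Y L fl N) :
    Y.len w ≤ N + Y.s * (C * N) := by
  unfold TT at hw
  rw [mem_image] at hw
  obtain ⟨⟨w, U⟩, hx, rfl⟩ := hw
  rw [mem_sigma, mem_powerset] at hx
  simp only at hx ⊢
  obtain ⟨h1, h2⟩ := mem_Co.1 hx.1
  have h := hf.fl_K w U h1 hx.2
  rw [Y.len_K _ _ h]
  have h3 : U.card ≤ (Y.S w).card := by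
    refine card_le_card fun q hq => ?_
    have h4 := (mem_Sl.1 (hx.2 hq))
    rcases h4.2 with h5 | h5
    · exact h5
    · have : q ∈ Oc Y L w := mem_Oc.2 ⟨h4.1, h5⟩
      rw [h1.2] at this
      exact absurd this (notMem_empty q)
  have h4 := hC _ _ h1.1
  have h5 : C * Y.len w ≤ C * N := Nat.mul_le_mul_left _ h2
  have h6 := Nat.mul_le_mul_left Y.s (h3.trans (h4.trans h5))
  omega

end ts

/-! ### networks -/

variable {Ver : Type} {p k : ℕ} {A : Ver → Ver → Prop}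
variable {src tgt : Fin k → Fin p} {Q : Net Ver p k → Prop} {X : Geo Ver} {Z : Rul X A}
  {b : ℕ} {hQ : Ins Q} {hb : Bdd X A src tgt Q b}

/-- monomials -/
def mon {R : Type} [CommMonoid R] (t : Fin k → R) (w : Net Ver p k) : R :=
  ∏ e, t e ^ ((w.2 e).length + 1)

/-- the slots on the strand `e` -/
def SlE (Z : Rul X A) (hQ : Ins Q) (hb : Bdd X A src tgt Q b) (L : Finset (List Ver × List Ver))
    (w : Net Ver p k) (e : Fin k) : Finset (List Ver × List Ver) :=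
  (Sl (sysN Z hQ hb) L w).filter (At w e)

variable {L : Finset (List Ver × List Ver)} {st : Net Ver p k → Net Ver p k}
    {fl : Net Ver p k → Finset (List Ver × List Ver) → Net Ver p k}

theorem mon_fill (hsub : ∀ U U', Z.T U U' → ∀ x ∈ U, x ∈ U') (hL : Fam (sysN Z hQ hb) L)
    (hf : Fill (sysN Z hQ hb) L st fl) {w : Net Ver p k}
    (hw : Em (sysN Z hQ hb) L w) {R : Type} [CommMonoid R] (t : Fin k → R)
    {U : Finset (List Ver × List Ver)} (hU : U ⊆ Sl (sysN Z hQ hb) L w) :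
    mon t (fl w U) = mon t w * ∏ q ∈ U, ∏ e, if At w e q then t e ^ Z.s else 1 := by
  obtain ⟨-, -, h, -⟩ := fill_facts Z hsub hQ hb hL hf hw U hU
  unfold mon
  rw [Finset.prod_comm, ← prod_mul_distrib]
  refine prod_congr rfl fun e _ => ?_
  rw [h e, ← prod_filter, prod_const, ← pow_mul, ← pow_add]
  congr 1
  ring

/-- the weights of the interior points -/
def Wt (h : (Fin p → Ver) → Fin k → Ver → ℝ) (w : Net Ver p k) : ℝ := ∏ e, lw (h w.1 e) (w.2 e)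

theorem Wt_mem {h : (Fin p → Ver) → Fin k → Ver → ℝ} (h0 : ∀ v e x, 0 ≤ h v e x ∧ h v e x ≤ 1)
    (w : Net Ver p k) : 0 ≤ Wt h w ∧ Wt h w ≤ 1 :=
  ⟨prod_nonneg fun e _ => (lw_mem (h0 w.1 e) _).1,
    prod_le_one (fun e _ => (lw_mem (h0 w.1 e) _).1) fun e _ => (lw_mem (h0 w.1 e) _).2⟩

theorem Wt_fill (hsub : ∀ U U', Z.T U U' → ∀ x ∈ U, x ∈ U') (hL : Fam (sysN Z hQ hb) L)
    (hf : Fill (sysN Z hQ hb) L st fl) {w : Net Ver p k}
    (hw : Em (sysN Z hQ hb) L w) (h : (Fin p → Ver) → Fin k → Ver → ℝ)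
    {U : Finset (List Ver × List Ver)} (hU : U ⊆ Sl (sysN Z hQ hb) L w) :
    Wt h (fl w U) = Wt h w * ∏ q ∈ U, ∏ e, if At w e q then lw (h w.1 e) (newp q) else 1 := by
  obtain ⟨h1, -, -, h2⟩ := fill_facts Z hsub hQ hb hL hf hw U hU
  unfold Wt
  rw [Finset.prod_comm, ← prod_mul_distrib, h1]
  refine prod_congr rfl fun e _ => ?_
  rw [h2, ← prod_filter]

/-- the factor of a slot -/
def yq (Z : Rul X A) (h : (Fin p → Ver) → Fin k → Ver → ℝ) (z : Fin k → ℂ) (w : Net Ver p k)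
    (q : List Ver × List Ver) : ℂ :=
  ∏ e, if At w e q then ((lw (h w.1 e) (newp q) : ℝ) : ℂ) * z e ^ Z.s else 1

/-- the sum over the fillings of some of the slots -/
theorem sum_fill (hsub : ∀ U U', Z.T U U' → ∀ x ∈ U, x ∈ U') (hL : Fam (sysN Z hQ hb) L)
    (hf : Fill (sysN Z hQ hb) L st fl)
    {w : Net Ver p k} (hw : Em (sysN Z hQ hb) L w) {R : Type} [CommRing R] (t : Fin k → R)
    {V : Finset (List Ver × List Ver)} (hV : V ⊆ Sl (sysN Z hQ hb) L w) :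
    ∑ U ∈ V.powerset, mon t (fl w U) =
      mon t w * ∏ e, (1 + t e ^ Z.s) ^ (V.filter (At w e)).card := by
  have e1 : ∀ U ∈ V.powerset, mon t (fl w U) =
      mon t w * ∏ q ∈ U, ∏ e, if At w e q then t e ^ Z.s else 1 := fun U hU =>
    mon_fill hsub hL hf hw t ((mem_powerset.1 hU).trans hV)
  rw [sum_congr rfl e1, ← mul_sum]
  congr 1
  have e2 : ∏ e, (1 + t e ^ Z.s) ^ (V.filter (At w e)).card =
      ∏ q ∈ V, ∏ e, if At w e q then 1 + t e ^ Z.s else 1 := by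
    rw [Finset.prod_comm]
    refine prod_congr rfl fun e _ => ?_
    rw [← prod_filter, prod_const]
  have e3 : ∀ q ∈ V, (∏ e, if At w e q then 1 + t e ^ Z.s else 1) =
      1 + ∏ e, if At w e q then t e ^ Z.s else 1 := by
    intro q hq
    obtain ⟨e0, h1, h2⟩ := at_ex Z hb (N := w) hw.1 (mem_Sl.1 (hV hq)).2
    have e4 : ∀ c : Fin k → R, (∏ e, if At w e q then c e else 1) = c e0 := by
      intro c
      rw [Finset.prod_eq_single e0]
      · rw [if_pos h1]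
      · intro e _ he
        rw [if_neg fun hc => he (h2 e hc)]
      · intro hc
        exact absurd (mem_univ e0) hc
    rw [e4 (fun e => 1 + t e ^ Z.s), e4 (fun e => t e ^ Z.s)]
  rw [e2, prod_congr rfl e3, Finset.prod_one_add]

/-- the generating function of the classes -/
def PF (Z : Rul X A) (hQ : Ins Q) (hb : Bdd X A src tgt Q b) (L : Finset (List Ver × List Ver))
    (g : (Fin p → Ver) → ℂ) (h : (Fin p → Ver) → Fin k → Ver → ℝ) (N : ℕ) (z : Fin k → ℂ) : ℂ :=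
  ∑ w ∈ Co (sysN Z hQ hb) L N, g w.1 * (((Wt h w : ℝ) : ℂ) * mon z w *
    ∏ q ∈ Sl (sysN Z hQ hb) L w, (1 + yq Z h z w q))

theorem PF_diff (g : (Fin p → Ver) → ℂ) (h : (Fin p → Ver) → Fin k → Ver → ℝ) (N : ℕ) :
    Differentiable ℂ (PF Z hQ hb L g h N) := by
  have h1 : ∀ (w : Net Ver p k) (q : List Ver × List Ver),
      Differentiable ℂ (fun z : Fin k → ℂ => yq Z h z w q) := by
    intro w q
    unfold yq
    have h2 : ∀ e : Fin k, Differentiable ℂ (fun z : Fin k → ℂ =>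
        if At w e q then ((lw (h w.1 e) (newp q) : ℝ) : ℂ) * z e ^ Z.s else 1) := by
      intro e
      by_cases hc : At w e q
      · simp only [if_pos hc]
        fun_prop
      · simp only [if_neg hc]
        fun_prop
    exact diff_prod _ _ h2
  unfold PF mon
  refine Differentiable.fun_sum fun w _ => ?_
  refine (differentiable_const _).mul (Differentiable.mul (by fun_prop) ?_)
  exact diff_prod _ (fun q z => 1 + yq Z h z w q) fun q => (differentiable_const 1).add (h1 w q)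

theorem PF_eq (hsub : ∀ U U', Z.T U U' → ∀ x ∈ U, x ∈ U') (hL : Fam (sysN Z hQ hb) L)
    (hf : Fill (sysN Z hQ hb) L st fl)
    (g : (Fin p → Ver) → ℂ) (h : (Fin p → Ver) → Fin k → Ver → ℝ) (N : ℕ) (z : Fin k → ℂ) :
    PF Z hQ hb L g h N z =
      ∑ w ∈ TT (sysN Z hQ hb) L fl N, g w.1 * (((Wt h w : ℝ) : ℂ) * mon z w) := by
  rw [sum_TT hf]
  unfold PF
  refine sum_congr rfl fun w hw => ?_
  have hw' := (mem_Co.1 hw).1
  have e1 : ∀ U ∈ (Sl (sysN Z hQ hb) L w).powerset,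
      g (fl w U).1 * (((Wt h (fl w U) : ℝ) : ℂ) * mon z (fl w U)) =
      g w.1 * (((Wt h w : ℝ) : ℂ) * mon z w) * ∏ q ∈ U, yq Z h z w q := by
    intro U hU
    rw [mem_powerset] at hU
    rw [(fill_facts Z hsub hQ hb hL hf hw' U hU).1, Wt_fill hsub hL hf hw' h hU,
      mon_fill hsub hL hf hw' z hU]
    have e2 : ∏ q ∈ U, yq Z h z w q =
        ((∏ q ∈ U, ∏ e, if At w e q then lw (h w.1 e) (newp q) else 1 : ℝ) : ℂ) *
          ∏ q ∈ U, ∏ e, if At w e q then z e ^ Z.s else 1 := by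
      rw [Complex.ofReal_prod, ← prod_mul_distrib]
      refine prod_congr rfl fun q _ => ?_
      unfold yq
      rw [Complex.ofReal_prod, ← prod_mul_distrib]
      refine prod_congr rfl fun e _ => ?_
      split_ifs
      · rfl
      · rw [Complex.ofReal_one, one_mul]
    rw [e2, Complex.ofReal_mul]
    ring
  rw [sum_congr rfl e1, ← mul_sum, ← Finset.prod_one_add]
  ring

/-- few slots on the strands in `J` -/
def Bad (Z : Rul X A) (hQ : Ins Q) (hb : Bdd X A src tgt Q b) (L : Finset (List Ver × List Ver))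
    (c₀ : ℝ) (J : Finset (Fin k)) (w : Net Ver p k) : Prop :=
  ∀ e ∈ J, ((SlE Z hQ hb L w e).card : ℝ) < c₀ * ((w.2 e).length + 1 : ℕ)

/-- admissible comparison points -/
def Adm (s : ℕ) (c₀ : ℝ) (ζ : ℂ) (x : ℝ) : Prop :=
  0 < x ∧ ∃ δ : ℝ, 0 ≤ δ ∧ ‖ζ‖ ≤ x * Real.exp (c₀ * δ) ∧
    ‖1 + ζ ^ s‖ ≤ (1 + x ^ s) * Real.exp (-δ) ∧ 1 ≤ (1 + x ^ s) * Real.exp (-δ)

/-- the size for strands with few slots -/
def BB (s : ℕ) (c₀ : ℝ) (ζ : ℂ) : ℝ := ‖ζ‖ * (1 + ‖ζ‖ ^ s) ^ c₀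

theorem BB_nonneg (s : ℕ) (c₀ : ℝ) (ζ : ℂ) : 0 ≤ BB s c₀ ζ := by
  unfold BB
  positivity

/-- one strand -/
theorem one_str {s : ℕ} {c₀ : ℝ} {ζ : ℂ} {x : ℝ} (h : Adm s c₀ ζ x) (l S : ℕ) :
    ‖ζ‖ ^ l * max 1 ‖1 + ζ ^ s‖ ^ S ≤
      if (S : ℝ) < c₀ * l then BB s c₀ ζ ^ l else x ^ l * (1 + x ^ s) ^ S := by
  obtain ⟨hx, δ, hδ, h1, h2, h2'⟩ := h
  have hm0 : 0 ≤ max 1 ‖1 + ζ ^ s‖ := le_max_of_le_left zero_le_one
  split_ifs with hlt
  · have hbase : 1 ≤ 1 + ‖ζ‖ ^ s := by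
      have : 0 ≤ ‖ζ‖ ^ s := by positivity
      linarith
    have e1 : max 1 ‖1 + ζ ^ s‖ ≤ 1 + ‖ζ‖ ^ s := by
      refine max_le hbase ((norm_add_le _ _).trans ?_)
      rw [norm_one, norm_pow]
    have e3 : (1 + ‖ζ‖ ^ s) ^ S ≤ ((1 + ‖ζ‖ ^ s) ^ c₀) ^ l := by
      calc (1 + ‖ζ‖ ^ s) ^ S = (1 + ‖ζ‖ ^ s) ^ (S : ℝ) := (Real.rpow_natCast _ _).symm
        _ ≤ (1 + ‖ζ‖ ^ s) ^ (c₀ * l) := Real.rpow_le_rpow_of_exponent_le hbase hlt.le
        _ = ((1 + ‖ζ‖ ^ s) ^ c₀) ^ l := by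
            rw [Real.rpow_mul (by linarith), Real.rpow_natCast]
    unfold BB
    rw [mul_pow]
    refine mul_le_mul_of_nonneg_left ?_ (by positivity)
    exact (pow_le_pow_left₀ hm0 e1 S).trans e3
  · have hge : c₀ * l ≤ S := not_lt.1 hlt
    have e4 : Real.exp (c₀ * δ) ^ l * Real.exp (-δ) ^ S ≤ 1 := by
      rw [← Real.exp_nat_mul, ← Real.exp_nat_mul, ← Real.exp_add]
      rw [Real.exp_le_one_iff]
      have : c₀ * l * δ ≤ S * δ := mul_le_mul_of_nonneg_right hge hδ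
      linarith
    have h3 : max 1 ‖1 + ζ ^ s‖ ≤ (1 + x ^ s) * Real.exp (-δ) := max_le h2' h2
    calc ‖ζ‖ ^ l * max 1 ‖1 + ζ ^ s‖ ^ S
        ≤ (x * Real.exp (c₀ * δ)) ^ l * ((1 + x ^ s) * Real.exp (-δ)) ^ S := by
          gcongr
      _ = x ^ l * (1 + x ^ s) ^ S * (Real.exp (c₀ * δ) ^ l * Real.exp (-δ) ^ S) := by
          rw [mul_pow, mul_pow]; ring
      _ ≤ x ^ l * (1 + x ^ s) ^ S * 1 := mul_le_mul_of_nonneg_left e4 (by positivity)
      _ = _ := mul_one _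

/-- the product over the slots -/
theorem yq_le {h : (Fin p → Ver) → Fin k → Ver → ℝ} (h0 : ∀ v e x, 0 ≤ h v e x ∧ h v e x ≤ 1)
    (z : Fin k → ℂ) {w : Net Ver p k} (hw : Em (sysN Z hQ hb) L w) :
    ‖∏ q ∈ Sl (sysN Z hQ hb) L w, (1 + yq Z h z w q)‖ ≤
      ∏ e, max 1 ‖1 + z e ^ Z.s‖ ^ (SlE Z hQ hb L w e).card := by
  have e2 : ∏ e, max 1 ‖1 + z e ^ Z.s‖ ^ (SlE Z hQ hb L w e).card =
      ∏ q ∈ Sl (sysN Z hQ hb) L w, ∏ e, if At w e q then max 1 ‖1 + z e ^ Z.s‖ else 1 := by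
    rw [Finset.prod_comm]
    refine prod_congr rfl fun e _ => ?_
    unfold SlE
    rw [← prod_filter, prod_const]
  rw [e2, norm_prod]
  refine prod_le_prod (fun q _ => norm_nonneg _) fun q hq => ?_
  obtain ⟨e0, h1, h2⟩ := at_ex Z hb (N := w) hw.1 (mem_Sl.1 hq).2
  have e4 : ∀ {R : Type} [CommMonoid R] (c : Fin k → R),
      (∏ e, if At w e q then c e else 1) = c e0 := by
    intro R _ c
    rw [Finset.prod_eq_single e0]
    · rw [if_pos h1]
    · intro e _ he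
      rw [if_neg fun hc => he (h2 e hc)]
    · intro hc
      exact absurd (mem_univ e0) hc
  unfold yq
  rw [e4 (fun e => ((lw (h w.1 e) (newp q) : ℝ) : ℂ) * z e ^ Z.s),
    e4 (fun e => max 1 ‖1 + z e ^ Z.s‖)]
  obtain ⟨a, ha⟩ : ∃ a : ℝ, a = lw (h w.1 e0) (newp q) := ⟨_, rfl⟩
  have ha' := lw_mem (h0 w.1 e0) (newp q)
  rw [← ha] at ha' ⊢
  have e5 : (1 : ℂ) + (a : ℂ) * z e0 ^ Z.s = ((1 - a : ℝ) : ℂ) + (a : ℂ) * (1 + z e0 ^ Z.s) := by
    push_cast
    ring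
  rw [e5]
  refine (norm_add_le _ _).trans ?_
  rw [norm_mul, Complex.norm_real, Complex.norm_real, Real.norm_of_nonneg ha'.1,
    Real.norm_of_nonneg (by linarith [ha'.2])]
  have h3 : 1 ≤ max 1 ‖1 + z e0 ^ Z.s‖ := le_max_left _ _
  have h4 : ‖1 + z e0 ^ Z.s‖ ≤ max 1 ‖1 + z e0 ^ Z.s‖ := le_max_right _ _
  have h5 : a * ‖1 + z e0 ^ Z.s‖ ≤ a * max 1 ‖1 + z e0 ^ Z.s‖ := mul_le_mul_of_nonneg_left h4 ha'.1
  have h6 : (1 - a) * 1 ≤ (1 - a) * max 1 ‖1 + z e0 ^ Z.s‖ :=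
    mul_le_mul_of_nonneg_left h3 (by linarith [ha'.2])
  linarith

/-- the weights for the strands in `J` and the other strands -/
def tJ (J : Finset (Fin k)) (b x : Fin k → ℝ) (e : Fin k) : ℝ := if e ∈ J then b e else x e

theorem tJ_nonneg {J : Finset (Fin k)} {b x : Fin k → ℝ} (hb : ∀ e, 0 ≤ b e) (hx : ∀ e, 0 ≤ x e)
    (e : Fin k) : 0 ≤ tJ J b x e := by
  unfold tJ
  split_ifs
  · exact hb e
  · exact hx e

theorem mon_nonneg {t : Fin k → ℝ} (ht : ∀ e, 0 ≤ t e) (w : Net Ver p k) : 0 ≤ mon t w :=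
  prod_nonneg fun e _ => pow_nonneg (ht e) _

/-- the bound for one family -/
theorem PF_le (hsub : ∀ U U', Z.T U U' → ∀ x ∈ U, x ∈ U') (hL : Fam (sysN Z hQ hb) L)
    (hf : Fill (sysN Z hQ hb) L st fl)
    (g : (Fin p → Ver) → ℂ) {h : (Fin p → Ver) → Fin k → Ver → ℝ}
    (h0 : ∀ v e x, 0 ≤ h v e x ∧ h v e x ≤ 1) (N : ℕ) (z : Fin k → ℂ) (x : Fin k → ℝ) (c₀ : ℝ)
    (hx : ∀ e, Adm Z.s c₀ (z e) (x e)) :
    ‖PF Z hQ hb L g h N z‖ ≤ ∑ w ∈ TT (sysN Z hQ hb) L fl N, ‖g w.1‖ *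
      ∑ J : Finset (Fin k), if Bad Z hQ hb L c₀ J w then
        mon (tJ J (fun e => BB Z.s c₀ (z e)) x) w else 0 := by
  have hb0 : ∀ e, 0 ≤ (fun e => BB Z.s c₀ (z e)) e := fun e => BB_nonneg _ _ _
  have hx0 : ∀ e, 0 ≤ x e := fun e => (hx e).1.le
  rw [sum_TT hf]
  unfold PF
  refine (norm_sum_le _ _).trans (sum_le_sum fun w hw => ?_)
  have hw' := (mem_Co.1 hw).1
  obtain ⟨J, hJ⟩ : ∃ J : Finset (Fin k), J = univ.filter (fun e =>
    ((SlE Z hQ hb L w e).card : ℝ) < c₀ * ((w.2 e).length + 1 : ℕ)) := ⟨_, rfl⟩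
  have hJe : ∀ e, e ∈ J ↔ ((SlE Z hQ hb L w e).card : ℝ) < c₀ * ((w.2 e).length + 1 : ℕ) := by
    intro e
    rw [hJ, mem_filter]
    exact ⟨fun h => h.2, fun h => ⟨mem_univ e, h⟩⟩
  obtain ⟨V, hV⟩ : ∃ V : Finset (List Ver × List Ver),
    V = (Sl (sysN Z hQ hb) L w).filter (fun q => ∀ e ∈ J, ¬ At w e q) := ⟨_, rfl⟩
  have hVS : V ⊆ Sl (sysN Z hQ hb) L w := by rw [hV]; exact filter_subset _ _
  -- the norm
  have h1 : ‖g w.1 * (((Wt h w : ℝ) : ℂ) * mon z w *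
      ∏ q ∈ Sl (sysN Z hQ hb) L w, (1 + yq Z h z w q))‖ ≤
      ‖g w.1‖ * ∑ U ∈ V.powerset, mon (tJ J (fun e => BB Z.s c₀ (z e)) x) (fl w U) := by
    rw [norm_mul]
    refine mul_le_mul_of_nonneg_left ?_ (norm_nonneg _)
    rw [sum_fill hsub hL hf hw' _ hVS, norm_mul, norm_mul, Complex.norm_real,
      Real.norm_of_nonneg (Wt_mem h0 w).1]
    refine (mul_le_mul (mul_le_of_le_one_left (norm_nonneg _) (Wt_mem h0 w).2)
      (yq_le h0 z hw') (norm_nonneg _) (norm_nonneg _)).trans ?_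
    unfold mon
    rw [norm_prod, ← prod_mul_distrib, ← prod_mul_distrib]
    refine prod_le_prod (fun e _ => mul_nonneg (norm_nonneg _)
      (pow_nonneg (le_max_of_le_left zero_le_one) _)) fun e _ => ?_
    rw [norm_pow]
    refine (one_str (hx e) _ _).trans (le_of_eq ?_)
    unfold tJ
    by_cases he : e ∈ J
    · rw [if_pos ((hJe e).1 he), if_pos he]
      have : V.filter (At w e) = ∅ := by
        rw [hV, filter_eq_empty_iff]
        intro q hq hc
        exact (mem_filter.1 hq).2 e he hc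
      rw [this, card_empty, pow_zero, mul_one]
    · rw [if_neg (fun h => he ((hJe e).2 h)), if_neg he]
      have : V.filter (At w e) = SlE Z hQ hb L w e := by
        unfold SlE
        rw [hV, filter_filter]
        refine filter_congr fun q hq => ?_
        constructor
        · exact fun h => h.2
        · intro h
          refine ⟨fun e' he' hc => ?_, h⟩
          obtain ⟨e0, h3, h4⟩ := at_ex Z hb (N := w) hw'.1 (mem_Sl.1 hq).2
          rw [h4 e' hc, ← h4 e h] at he'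
          exact he he'
      rw [this]
  refine h1.trans ?_
  rw [mul_sum]
  refine (sum_le_sum fun U hU => ?_).trans (sum_le_sum_of_subset_of_nonneg
    (powerset_mono.2 hVS) fun U _ _ => mul_nonneg (norm_nonneg _) (sum_nonneg fun J _ => by
      split_ifs
      · exact mon_nonneg (tJ_nonneg hb0 hx0) _
      · exact le_rfl))
  rw [mem_powerset] at hU
  obtain ⟨f1, f2, f3, -⟩ := fill_facts Z hsub hQ hb hL hf hw' U (hU.trans hVS)
  rw [f1]
  refine mul_le_mul_of_nonneg_left ?_ (norm_nonneg _)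
  have hbad : Bad Z hQ hb L c₀ J (fl w U) := by
    intro e he
    have e1 : SlE Z hQ hb L (fl w U) e = SlE Z hQ hb L w e := by
      unfold SlE
      rw [hf.fl_sl w U hw' (hU.trans hVS)]
      exact filter_congr fun q hq => f2 q hq e
    have e2 : U.filter (At w e) = ∅ := by
      rw [filter_eq_empty_iff]
      intro q hq hc
      have h3 := hU hq
      rw [hV, mem_filter] at h3
      exact h3.2 e he hc
    rw [e1, f3 e, e2, card_empty, Nat.mul_zero, Nat.add_zero]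
    exact (hJe e).1 he
  have h2 := single_le_sum (f := fun J : Finset (Fin k) => if Bad Z hQ hb L c₀ J (fl w U) then
        mon (tJ J (fun e => BB Z.s c₀ (z e)) x) (fl w U) else 0) (s := univ) (fun J _ => by
      split_ifs
      · exact mon_nonneg (tJ_nonneg hb0 hx0) _
      · exact le_rfl) (mem_univ J)
  rw [if_pos hbad] at h2
  exact h2

end

end Pool.Agent.U198.NW
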