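import Pool.Agent.U198.NW.Cls

/-!
# Networks: the average over the families
-/

set_option autoImplicit false
set_option linter.unusedVariables false

namespace Pool.Agent.U198.NW

open Finset Filter Topology Pool.Agent.N929.EG Pool.Agent.N169.EG
open scoped Classical

noncomputable section

/-- most families hit every set of places well -/
def SelP {σ : Type} (κ : ℕ) (U : Finset σ) {ι : Type} [Fintype ι] (Λ : ι → Finset σ) : Prop :=
  ∀ P ⊆ U, ((univ.filter (fun i => κ * (Λ i ∩ P).card < P.card)).card : ℝ) ≤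
    Real.exp (-((P.card : ℝ) / κ)) * Fintype.card ι

theorem SelP.use {σ : Type} {κ : ℕ} {U : Finset σ} {ι : Type} [Fintype ι] {Λ : ι → Finset σ}
    (h : SelP κ U Λ) {P : Finset σ} (hP : P ⊆ U) (E : Finset ι)
    (hE : ∀ i ∈ E, ∃ V : Finset σ, (∀ q ∈ Λ i, q ∈ P → q ∈ V) ∧ κ * V.card < P.card) :
    (E.card : ℝ) ≤ Real.exp (-((P.card : ℝ) / κ)) * Fintype.card ι := by
  refine le_trans ?_ (h P hP)
  refine Nat.cast_le.2 (card_le_card fun i hi => ?_)
  rw [mem_filter]
  refine ⟨mem_univ i, ?_⟩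
  obtain ⟨V, h1, h2⟩ := hE i hi
  refine lt_of_le_of_lt (Nat.mul_le_mul_left κ (card_le_card ?_)) h2
  intro q hq
  rw [mem_inter] at hq
  exact h1 q hq.1 hq.2

variable {Ver : Type} [AddCommGroup Ver] {p k : ℕ} {A : Ver → Ver → Prop} {X : Geo Ver}
variable {src tgt : Fin k → Fin (p + 1)} {Q : Net Ver (p + 1) k → Prop} {Z : Rul X A}
  {b : ℕ} {hQ : Ins Q} {hb : Bdd X A src tgt Q b}

/-- walks with few downward moves -/
def Poor (Z : Rul X A) (M : ℕ) (u : List Ver) : Prop := M * (B Z u).card + 1 ≤ u.length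

/-- the factor for one strand -/
def fac (Z : Rul X A) (M κ : ℕ) (u : List Ver) : ℝ :=
  Real.exp ((c0 Z : ℝ) / κ) * Real.exp (-(1 / (2 * M * κ : ℝ))) ^ u.length +
    if Poor Z M u then 1 else 0

theorem fac_nonneg (M κ : ℕ) (u : List Ver) : 0 ≤ fac Z M κ u := by
  unfold fac
  split_ifs <;> positivity

/-- the proportion of the families with few slots on the strands in `J` -/
theorem frac (hZ : Inv Z) {M κ : ℕ} (hM : 1 ≤ M) (hκ : 1 ≤ κ) {N' : ℕ} {ι : Type} [Fintype ι]
    {Λ : ι → Finset (List Ver × List Ver)} (hΛ : SelP κ ((sysN Z hQ hb).U N') Λ) {c₀ : ℝ}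
    (hc : c₀ ≤ 1 / (2 * M * κ : ℝ))
    {n : ℕ} {w : Net Ver (p + 1) k} (hw : w ∈ KN X A src tgt Q b n) (hn : n ≤ N')
    (J : Finset (Fin k)) :
    ((univ.filter (fun i => Bad Z hQ hb (Λ i) c₀ J w)).card : ℝ) ≤
      (∏ e ∈ J, fac Z M κ (wlk src w e)) * Fintype.card ι := by
  have hM' : (0 : ℝ) < M := by exact_mod_cast hM
  have hκ' : (0 : ℝ) < κ := by exact_mod_cast hκ
  have hok := ((mem_KN hb).1 hw).1
  obtain ⟨P, hP⟩ : ∃ P : Fin k → Finset (List Ver × List Ver),
    P = fun e => (BN Z w).filter (At w e) := ⟨_, rfl⟩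
  obtain ⟨J', hJ'⟩ : ∃ J' : Finset (Fin k), J' = J.filter (fun e => ¬ Poor Z M (wlk src w e) ∧
    2 * M * c0 Z < (w.2 e).length + 1) := ⟨_, rfl⟩
  have hJJ : J' ⊆ J := by rw [hJ']; exact filter_subset _ _
  -- the strands in J'
  have h1 : ∀ e ∈ J', ((w.2 e).length + 1 : ℕ) ≤ 2 * M * (P e).card := by
    intro e he
    rw [hJ', mem_filter] at he
    obtain ⟨-, h2, h3⟩ := he
    unfold Poor at h2
    rw [wlk_len] at h2
    have h4 := B_wlk hZ hb hok e
    have h5 : (w.2 e).length + 1 ≤ M * (B Z (wlk src w e)).card := by omega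
    have h6 : M * (B Z (wlk src w e)).card ≤ M * ((P e).card + c0 Z) := by
      rw [hP]
      exact Nat.mul_le_mul_left M h4
    have h7 : M * ((P e).card + c0 Z) = M * (P e).card + M * c0 Z := by ring
    have h8 : 2 * M * c0 Z = M * c0 Z + M * c0 Z := by ring
    have h9 : 2 * M * (P e).card = M * (P e).card + M * (P e).card := by ring
    omega
  have hcard : (J'.biUnion P).card = ∑ e ∈ J', (P e).card := by
    refine card_biUnion fun e _ e' _ hne => ?_
    rw [Function.onFun, Finset.disjoint_left]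
    intro q hq hq'
    rw [hP] at hq hq'
    simp only at hq hq'
    rw [mem_filter] at hq hq'
    obtain ⟨e0, -, h3⟩ := at_ex Z hb hw (Or.inr hq.1)
    exact hne ((h3 e hq.2).trans (h3 e' hq'.2).symm)
  have hone : ∀ e ∈ J, e ∉ J' → 1 ≤ fac Z M κ (wlk src w e) := by
    intro e he he'
    rw [hJ', mem_filter] at he'
    push Not at he'
    unfold fac
    by_cases h2 : Poor Z M (wlk src w e)
    · rw [if_pos h2]
      have : 0 ≤ Real.exp ((c0 Z : ℝ) / κ) *
        Real.exp (-(1 / (2 * M * κ : ℝ))) ^ (wlk src w e).length := by positivity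
      linarith
    · rw [if_neg h2, add_zero, ← Real.exp_nat_mul, ← Real.exp_add, Real.one_le_exp_iff]
      have h3 := he' he h2
      have h4 : (((wlk src w e).length : ℕ) : ℝ) ≤ 2 * M * c0 Z := by
        rw [wlk_len]
        exact_mod_cast h3
      have h5 : (((wlk src w e).length : ℕ) : ℝ) * (1 / (2 * M * κ : ℝ)) ≤
          2 * M * c0 Z * (1 / (2 * M * κ : ℝ)) := mul_le_mul_of_nonneg_right h4 (by positivity)
      have h6 : (2 * M * c0 Z * (1 / (2 * M * κ : ℝ)) : ℝ) = c0 Z / κ := by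
        field_simp
      rw [h6] at h5
      linarith
  have hfac : ∀ e ∈ J', Real.exp (-((P e).card / κ : ℝ)) ≤ fac Z M κ (wlk src w e) := by
    intro e he
    unfold fac
    have h2 : (0 : ℝ) ≤ if Poor Z M (wlk src w e) then 1 else 0 := by
      split_ifs <;> norm_num
    have h3 : Real.exp (-((P e).card / κ : ℝ)) ≤
        Real.exp (-(1 / (2 * M * κ : ℝ))) ^ (wlk src w e).length := by
      rw [← Real.exp_nat_mul, Real.exp_le_exp, wlk_len]
      have h4 : (((w.2 e).length + 1 : ℕ) : ℝ) ≤ 2 * M * (P e).card := by exact_mod_cast h1 e he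
      have h5 := mul_le_mul_of_nonneg_right h4 (show (0 : ℝ) ≤ 1 / (2 * M * κ : ℝ) by positivity)
      have h6 : (2 * M * (P e).card * (1 / (2 * M * κ : ℝ)) : ℝ) = (P e).card / κ := by
        field_simp
      rw [h6] at h5
      linarith
    have h4 : 1 ≤ Real.exp ((c0 Z : ℝ) / κ) := Real.one_le_exp (by positivity)
    have h5 : (0 : ℝ) ≤ Real.exp (-(1 / (2 * M * κ : ℝ))) ^ (wlk src w e).length := by positivity
    nlinarith
  have hcι : (0 : ℝ) ≤ Fintype.card ι := Nat.cast_nonneg _
  -- products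
  have hpr : ∏ e ∈ J', Real.exp (-((P e).card / κ : ℝ)) ≤ ∏ e ∈ J, fac Z M κ (wlk src w e) := by
    rw [← prod_sdiff hJJ]
    have h2 : ∏ e ∈ J', Real.exp (-((P e).card / κ : ℝ)) ≤ ∏ e ∈ J', fac Z M κ (wlk src w e) :=
      prod_le_prod (fun e _ => (Real.exp_pos _).le) hfac
    have h3 : (1 : ℝ) ≤ ∏ e ∈ J \ J', fac Z M κ (wlk src w e) := by
      have : ∏ e ∈ J \ J', (1 : ℝ) ≤ ∏ e ∈ J \ J', fac Z M κ (wlk src w e) :=
        prod_le_prod (fun _ _ => zero_le_one) fun e he => by
          rw [Finset.mem_sdiff] at he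
          exact hone e he.1 he.2
      rwa [prod_const_one] at this
    have h4 : 0 ≤ ∏ e ∈ J', fac Z M κ (wlk src w e) := prod_nonneg fun e _ => fac_nonneg _ _ _
    nlinarith
  rcases J'.eq_empty_or_nonempty with hem | hne
  · rw [hem, prod_empty] at hpr
    have h2 : ((univ.filter (fun i => Bad Z hQ hb (Λ i) c₀ J w)).card : ℝ) ≤ Fintype.card ι := by
      exact_mod_cast card_le_univ _
    nlinarith
  · have h2 := hΛ.use (P := J'.biUnion P) (fun q hq => by
      rw [mem_biUnion] at hq
      obtain ⟨e, -, hq⟩ := hq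
      rw [hP] at hq
      exact ((sysN Z hQ hb).S_U n N' w hw hn).2 (mem_filter.1 hq).1)
      (univ.filter (fun i => Bad Z hQ hb (Λ i) c₀ J w)) (fun i hi => by
        rw [mem_filter] at hi
        refine ⟨J'.biUnion (SlE Z hQ hb (Λ i) w), fun q hq hqP => ?_, ?_⟩
        · rw [mem_biUnion] at hqP ⊢
          obtain ⟨e, he, hqe⟩ := hqP
          refine ⟨e, he, ?_⟩
          rw [hP] at hqe
          simp only at hqe
          rw [mem_filter] at hqe
          unfold SlE
          rw [mem_filter, mem_Sl]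
          exact ⟨⟨hq, Or.inr hqe.1⟩, hqe.2⟩
        · have h3 : ((J'.biUnion (SlE Z hQ hb (Λ i) w)).card : ℝ) ≤
              ∑ e ∈ J', ((SlE Z hQ hb (Λ i) w e).card : ℝ) := by
            exact_mod_cast card_biUnion_le
          have h4 : ∑ e ∈ J', ((SlE Z hQ hb (Λ i) w e).card : ℝ) <
              ∑ e ∈ J', ((P e).card / κ : ℝ) := by
            refine sum_lt_sum_of_nonempty hne fun e he => ?_
            have h5 := hi.2 e (hJJ he)
            refine h5.trans_le ?_
            have h6 : (((w.2 e).length + 1 : ℕ) : ℝ) ≤ 2 * M * (P e).card := by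
              exact_mod_cast h1 e he
            calc c₀ * (((w.2 e).length + 1 : ℕ) : ℝ)
                ≤ 1 / (2 * M * κ : ℝ) * (((w.2 e).length + 1 : ℕ) : ℝ) :=
                  mul_le_mul_of_nonneg_right hc (by positivity)
              _ ≤ 1 / (2 * M * κ : ℝ) * (2 * M * (P e).card) :=
                  mul_le_mul_of_nonneg_left h6 (by positivity)
              _ = (P e).card / κ := by field_simp
          have h5 : ((J'.biUnion (SlE Z hQ hb (Λ i) w)).card : ℝ) < (J'.biUnion P).card / κ := by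
            rw [hcard]
            push_cast
            rw [sum_div]
            exact h3.trans_lt h4
          rw [lt_div_iff₀ hκ'] at h5
          have h6 : (κ * (J'.biUnion (SlE Z hQ hb (Λ i) w)).card : ℝ) < (J'.biUnion P).card := by
            linarith
          exact_mod_cast h6)
    refine h2.trans (mul_le_mul_of_nonneg_right ?_ hcι)
    refine le_trans (le_of_eq ?_) hpr
    rw [← Real.exp_sum, hcard, sum_neg_distrib]
    congr 2
    push_cast
    rw [sum_div]

end

end Pool.Agent.U198.NW
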