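import Pool.Agent.U198.NW.Net

/-!
# Networks: the strands of the slots, and the lengths of the strands under fillings
-/

set_option autoImplicit false
set_option linter.unusedVariables false

namespace Pool.Agent.U198.NW

open Finset Filter Topology Pool.Agent.N929.EG Pool.Agent.N169.EG
open scoped Classical

noncomputable section

theorem mem_Sl {α σ : Type} {Y : TS α σ} {L : Finset σ} {w : α} {q : σ} :
    q ∈ Sl Y L w ↔ q ∈ L ∧ (q ∈ Y.S w ∨ q ∈ Y.B w) := by
  unfold Sl
  rw [Finset.mem_filter]

theorem mem_Oc {α σ : Type} {Y : TS α σ} {L : Finset σ} {w : α} {q : σ} :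
    q ∈ Oc Y L w ↔ q ∈ L ∧ q ∈ Y.B w := by
  unfold Oc
  rw [Finset.mem_filter]

variable {Ver : Type} {p k : ℕ} {A : Ver → Ver → Prop}
variable {src tgt : Fin k → Fin p} {Q : Net Ver p k → Prop}

/-- the slot `q` is on the strand `e` -/
def At (N : Net Ver p k) (e : Fin k) (q : List Ver × List Ver) : Prop :=
  ∃ x, q.1.head? = some x ∧ x ∈ N.2 e

theorem hd_of {U U' : List Ver} (h : Pair A U U') :
    ∃ x, U.head? = some x ∧ x ∈ U ∧ x ∈ U' := by
  obtain ⟨⟨a, r, X, X', h1, h2, -, -⟩, -⟩ := h
  exact ⟨a, by rw [h1]; rfl, by rw [h1]; simp, by rw [h2]; simp⟩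

/-- other points stay on their strands -/
theorem rep_mem (hQ : Ins Q) {U U' : List Ver} (h : Pair A U U') {N : Net Ver p k}
    (hN : Ok A src tgt Q N) (hf : FreeN U U' N) {x : Ver} (hx : x ∈ U ↔ x ∈ U') (e : Fin k) :
    x ∈ (repN N U U').2 e ↔ x ∈ N.2 e := by
  obtain ⟨e0, L, R, h1, h2, -, -, -⟩ := allN hQ h hN hf
  rw [h2]
  rcases eq_or_ne e e0 with rfl | hne
  · simp only [Function.update_self]
    rw [h1]
    simp only [List.mem_append, hx]
  · simp only [Function.update_of_ne hne]

/-- the product of the values of `h` along a list -/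
def lw (h : Ver → ℝ) (l : List Ver) : ℝ := (l.map h).prod

theorem lw_append (h : Ver → ℝ) (l l' : List Ver) : lw h (l ++ l') = lw h l * lw h l' := by
  unfold lw
  rw [List.map_append, List.prod_append]

theorem lw_mem {h : Ver → ℝ} (h0 : ∀ x, 0 ≤ h x ∧ h x ≤ 1) (l : List Ver) :
    0 ≤ lw h l ∧ lw h l ≤ 1 := by
  induction l with
  | nil => simp [lw]
  | cons x l ih =>
    have e : lw h (x :: l) = h x * lw h l := by
      unfold lw
      rw [List.map_cons, List.prod_cons]
    rw [e]
    exact ⟨mul_nonneg (h0 x).1 ih.1, mul_le_one₀ (h0 x).2 ih.1 ih.2⟩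

/-- the new points of a slot -/
def newp (q : List Ver × List Ver) : List Ver := q.2.filter (fun x => x ∉ q.1)

/-- the product along the strands -/
theorem rep_lw (hQ : Ins Q) {U U' : List Ver} (h : Pair A U U') (hsub : ∀ x ∈ U, x ∈ U')
    {N : Net Ver p k} (hN : Ok A src tgt Q N) (hf : FreeN U U' N) (f : Ver → ℝ) (e : Fin k) :
    lw f ((repN N U U').2 e) = lw f (N.2 e) *
      if At N e (U, U') then lw f (newp (U, U')) else 1 := by
  obtain ⟨e0, L, R, h1, h2, -, -, -⟩ := allN hQ h hN hf
  obtain ⟨x, hx1, hx2, -⟩ := hd_of h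
  have hx0 : x ∈ N.2 e0 := by rw [h1]; simp [hx2]
  rw [h2]
  rcases eq_or_ne e e0 with rfl | hne
  · rw [if_pos ⟨x, hx1, hx0⟩]
    simp only [Function.update_self]
    obtain ⟨-, n1, n2, -, -⟩ := h
    have hp : U'.Perm (U ++ newp (U, U')) := by
      refine (List.perm_ext_iff_of_nodup n2 ?_).2 fun a => ?_
      · rw [List.nodup_append]
        refine ⟨n1, n2.filter _, fun a ha b hb hab => ?_⟩
        unfold newp at hb
        rw [List.mem_filter] at hb
        subst hab
        simpa [ha] using hb.2
      · rw [List.mem_append]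
        unfold newp
        rw [List.mem_filter]
        constructor
        · intro ha
          by_cases hc : a ∈ U
          · exact Or.inl hc
          · exact Or.inr ⟨ha, by simpa using hc⟩
        · rintro (ha | ha)
          · exact hsub a ha
          · exact ha.1
    have e1 : lw f U' = lw f U * lw f (newp (U, U')) := by
      rw [← lw_append]
      unfold lw
      exact (hp.map f).prod_eq
    rw [h1, lw_append, lw_append, lw_append, lw_append, e1]
    ring
  · rw [if_neg, mul_one]
    · simp only [Function.update_of_ne hne]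
    · rintro ⟨y, hy1, hy2⟩
      have : y = x := by
        simp only at hy1
        rw [hx1] at hy1
        exact (Option.some.inj hy1).symm
      subst this
      exact hN.dis e0 e hne.symm y hx0 hy2

/-- the length of the strands -/
theorem rep_len (hQ : Ins Q) {U U' : List Ver} (h : Pair A U U') {N : Net Ver p k}
    (hN : Ok A src tgt Q N) (hf : FreeN U U' N) {s : ℕ} (hs : U'.length = U.length + s)
    (e : Fin k) : ((repN N U U').2 e).length =
      (N.2 e).length + if At N e (U, U') then s else 0 := by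
  obtain ⟨e0, L, R, h1, h2, -, -, -⟩ := allN hQ h hN hf
  obtain ⟨x, hx1, hx2, -⟩ := hd_of h
  have hx0 : x ∈ N.2 e0 := by rw [h1]; simp [hx2]
  rw [h2]
  rcases eq_or_ne e e0 with rfl | hne
  · rw [if_pos ⟨x, hx1, hx0⟩]
    simp only [Function.update_self]
    rw [h1]
    simp only [List.length_append]
    omega
  · rw [if_neg, Nat.add_zero]
    · simp only [Function.update_of_ne hne]
    · rintro ⟨y, hy1, hy2⟩
      have : y = x := by
        simp only at hy1
        rw [hx1] at hy1
        exact (Option.some.inj hy1).symm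
      subst this
      exact hN.dis e0 e hne.symm y hx0 hy2

variable {X : Geo Ver} (Z : Rul X A) {b : ℕ}

/-- every slot is on exactly one strand -/
theorem at_ex (hb : Bdd X A src tgt Q b) {n : ℕ} {N : Net Ver p k} (hN : N ∈ KN X A src tgt Q b n)
    {q : List Ver × List Ver} (hq : q ∈ SN Z N ∨ q ∈ BN Z N) :
    ∃ e, At N e q ∧ ∀ e', At N e' q → e' = e := by
  rw [mem_KN hb] at hN
  obtain ⟨x, hx1, e, hx2⟩ : ∃ x, q.1.head? = some x ∧ ∃ e, x ∈ N.2 e := by
    rcases hq with hq | hq
    · rw [mem_SN] at hq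
      obtain ⟨x, h1, h2, -⟩ := hd_of (Z.pair _ _ hq.1)
      obtain ⟨⟨e, he⟩, -⟩ := hq.2
      exact ⟨x, h1, e, he.subset h2⟩
    · rw [mem_BN] at hq
      obtain ⟨x, h1, -, h2⟩ := hd_of (Z.pair _ _ hq.1)
      obtain ⟨⟨e, he⟩, -⟩ := hq.2
      exact ⟨x, h1, e, he.subset h2⟩
  refine ⟨e, ⟨x, hx1, hx2⟩, ?_⟩
  rintro e' ⟨y, hy1, hy2⟩
  rw [hx1] at hy1
  obtain rfl := Option.some.inj hy1
  by_contra hne
  exact hN.1.dis e' e hne x hy2 hx2

/-- the fillings: the vertices, the strands of the slots and the lengths -/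
theorem fill_facts (hsub : ∀ U U', Z.T U U' → ∀ x ∈ U, x ∈ U') (hQ : Ins Q) (hb : Bdd X A src tgt Q b) {L : Finset (List Ver × List Ver)}
    {st : Net Ver p k → Net Ver p k}
    {fl : Net Ver p k → Finset (List Ver × List Ver) → Net Ver p k}
    (hL : Fam (sysN Z hQ hb) L) (hf : Fill (sysN Z hQ hb) L st fl) {w : Net Ver p k}
    (hw : Em (sysN Z hQ hb) L w) (U : Finset (List Ver × List Ver)) :
    U ⊆ Sl (sysN Z hQ hb) L w → (fl w U).1 = w.1 ∧
      (∀ q ∈ Sl (sysN Z hQ hb) L w, ∀ e, At (fl w U) e q ↔ At w e q) ∧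
      (∀ e, ((fl w U).2 e).length = (w.2 e).length + Z.s * (U.filter (At w e)).card) ∧
      ∀ (f : Ver → ℝ) (e : Fin k), lw f ((fl w U).2 e) =
        lw f (w.2 e) * ∏ q ∈ U.filter (At w e), lw f (newp q) := by
  induction U using Finset.induction_on with
  | empty =>
    intro _
    rw [hf.fl_empty w hw]
    exact ⟨rfl, fun _ _ _ => Iff.rfl, fun e => by simp, fun f e => by simp⟩
  | insert q U hq ih =>
    intro hU
    have hU' : U ⊆ Sl (sysN Z hQ hb) L w := (Finset.subset_insert _ _).trans hU
    have hqS := hU (Finset.mem_insert_self q U)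
    obtain ⟨h1, h2, h3, h3'⟩ := ih hU'
    obtain ⟨h4, h5⟩ := hf.fl_insert w U q hw hU' hqS hq
    have h6 : fl w (insert q U) = repN (fl w U) q.1 q.2 := by
      have h5' : (sysN Z hQ hb).ins (fl w U) q = repN (fl w U) q.1 q.2 := rfl
      have h5'' : (insert q U : Finset (List Ver × List Ver)) =
          @insert _ _ (@Finset.instInsert _ fun a b => Classical.propDecidable (a = b)) q U := by
        ext x
        simp only [Finset.mem_insert]
      rw [h5'']
      exact h5
    have h7 : q ∈ SN Z (fl w U) := h4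
    rw [mem_SN] at h7
    have h8 : fl w U ∈ KN X A src tgt Q b _ := hf.fl_K w U hw hU'
    rw [mem_KN hb] at h8
    have hp := Z.pair _ _ h7.1
    refine ⟨?_, fun q' hq' e => ?_, fun e => ?_, fun f e => ?_⟩
    · rw [h6]
      exact h1
    · rw [h6, ← h2 q' hq' e]
      unfold At
      refine exists_congr fun x => and_congr_right fun hx => ?_
      refine rep_mem hQ hp h8.1 h7.2 ?_ e
      rcases eq_or_ne q' q with rfl | hne
      · obtain ⟨y, hy1, hy2, hy3⟩ := hd_of hp
        rw [hx] at hy1
        obtain rfl := Option.some.inj hy1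
        exact ⟨fun _ => hy3, fun _ => hy2⟩
      · have hcf : ¬ Cf q' q := hL q' (mem_Sl.1 hq').1 q (mem_Sl.1 hqS).1 hne
        have hxq : x ∈ q'.1 ++ q'.2 := by
          rw [List.mem_append]
          left
          exact List.mem_of_head? hx
        constructor
        · intro hc
          exact absurd ⟨x, hxq, List.mem_append_left _ hc⟩ hcf
        · intro hc
          exact absurd ⟨x, hxq, List.mem_append_right _ hc⟩ hcf
    · have hlen := Z.len _ _ h7.1
      rw [h6, rep_len hQ hp h8.1 h7.2 (s := Z.s) (by omega) e, h3 e, Finset.filter_insert]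
      have h9 : At (fl w U) e (q.1, q.2) ↔ At w e q := h2 q hqS e
      by_cases hat : At w e q
      · rw [if_pos (h9.2 hat), if_pos hat, Finset.card_insert_of_notMem]
        · ring
        · intro hc
          exact hq (Finset.mem_filter.1 hc).1
      · rw [if_neg (fun hc => hat (h9.1 hc)), if_neg hat, Nat.add_zero]
    · rw [h6, rep_lw hQ hp (hsub _ _ h7.1) h8.1 h7.2 f e, h3' f e, Finset.filter_insert]
      have h9 : At (fl w U) e (q.1, q.2) ↔ At w e q := h2 q hqS e
      by_cases hat : At w e q
      · rw [if_pos (h9.2 hat), if_pos hat, Finset.prod_insert]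
        · ring
        · intro hc
          exact hq (Finset.mem_filter.1 hc).1
      · rw [if_neg (fun hc => hat (h9.1 hc)), if_neg hat, mul_one]

end

end Pool.Agent.U198.NW
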