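import Pool.Agent.U198.NW.Fil

/-!
# Networks and families of walks
-/

set_option autoImplicit false
set_option linter.unusedVariables false

namespace Pool.Agent.U198.NW

open Finset Filter Topology Pool.Agent.N929.EG Pool.Agent.N169.EG
open scoped Classical

noncomputable section

variable {Ver : Type} [AddCommGroup Ver] {p k : ℕ} {A : Ver → Ver → Prop} {X : Geo Ver}

/-- translation invariance; the short windows have no new points -/
structure Inv (Z : Rul X A) : Prop where
  o : X.o = 0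
  adj : ∀ a x y, A x y → A (x + a) (y + a)
  T : ∀ a U U', Z.T U U' → Z.T (U.map (fun x => x + a)) (U'.map (fun x => x + a))
  sub : ∀ U U', Z.T U U' → ∀ x ∈ U, x ∈ U'

/-- the vertices `a` and `b` are joined by a strand -/
def Link (src tgt : Fin k → Fin (p + 1)) (a b : Fin (p + 1)) : Prop :=
  ∃ e, (src e = a ∧ tgt e = b) ∨ (src e = b ∧ tgt e = a)

/-- connected topologies -/
def Conn (src tgt : Fin k → Fin (p + 1)) : Prop :=
  ∀ j, Relation.ReflTransGen (Link src tgt) 0 j

variable {src tgt : Fin k → Fin (p + 1)} {Q : Net Ver (p + 1) k → Prop}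

/-- the strand with its initial vertex, translated to the origin -/
def wlk (src : Fin k → Fin (p + 1)) (N : Net Ver (p + 1) k) (e : Fin k) : List Ver :=
  (N.1 (src e) :: N.2 e).map (fun x => x + -N.1 (src e))

/-- the last step of the strand -/
def stp (src tgt : Fin k → Fin (p + 1)) (N : Net Ver (p + 1) k) (e : Fin k) : Ver :=
  N.1 (tgt e) - (N.1 (src e) :: N.2 e).getLast (List.cons_ne_nil _ _)

theorem wlk_len (N : Net Ver (p + 1) k) (e : Fin k) :
    (wlk src N e).length = (N.2 e).length + 1 := by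
  unfold wlk
  rw [List.length_map, List.length_cons]

theorem chain_map {a : Ver} (hA : ∀ x y, A x y → A (x + a) (y + a)) {l : List Ver}
    (h : l.IsChain A) : (l.map (fun x => x + a)).IsChain A := by
  rw [List.isChain_map]
  exact h.imp fun x y hxy => hA x y hxy

theorem chain_src {N : Net Ver (p + 1) k} (hN : Ok A src tgt Q N) (e : Fin k) :
    (N.1 (src e) :: N.2 e).IsChain A := by
  obtain ⟨h1, h2, -, -⟩ := hN.join e
  cases hI : N.2 e with
  | nil => exact List.isChain_singleton _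
  | cons x l =>
    rw [hI] at h1 h2
    rw [List.isChain_cons_cons]
    exact ⟨h2 x rfl, h1⟩

theorem last_src {N : Net Ver (p + 1) k} (hN : Ok A src tgt Q N) (e : Fin k) :
    A ((N.1 (src e) :: N.2 e).getLast (List.cons_ne_nil _ _)) (N.1 (tgt e)) := by
  obtain ⟨-, -, h3, h4⟩ := hN.join e
  cases hI : N.2 e with
  | nil =>
    rw [List.getLast_singleton]
    exact h4 hI
  | cons x l =>
    rw [List.getLast_cons (List.cons_ne_nil _ _)]
    apply h3
    rw [hI]
    exact List.getLast?_eq_some_getLast _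

variable {Z : Rul X A} (hZ : Inv Z)
include hZ

theorem wlk_mem {N : Net Ver (p + 1) k} (hN : Ok A src tgt Q N) (e : Fin k) :
    wlk src N e ∈ Kw X A (N.2 e).length := by
  rw [mem_K Z, wlk_len]
  refine ⟨rfl, ?_, ?_, ?_⟩
  · unfold wlk
    rw [List.map_cons, List.head?_cons, add_neg_cancel, hZ.o]
  · unfold wlk
    refine List.Nodup.map (fun x y h => add_right_cancel h) ?_
    rw [List.nodup_cons]
    exact ⟨hN.ver e (src e), hN.nod e⟩
  · exact chain_map (hZ.adj _) (chain_src hN e)

theorem stp_mem {N : Net Ver (p + 1) k} (hN : Ok A src tgt Q N) (e : Fin k) :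
    stp src tgt N e ∈ X.bx X.o 1 := by
  have h1 := hZ.adj (-(N.1 (src e) :: N.2 e).getLast (List.cons_ne_nil _ _)) _ _ (last_src hN e)
  rw [add_neg_cancel, ← sub_eq_add_neg] at h1
  rw [hZ.o]
  exact Z.step _ _ h1

omit hZ in
theorem wlk_last (N : Net Ver (p + 1) k) (e : Fin k) :
    N.1 (tgt e) - N.1 (src e) = stp src tgt N e +
      (wlk src N e).getLast (by unfold wlk; simp) := by
  unfold stp wlk
  rw [List.getLast_map]
  abel

omit hZ in
/-- networks are given by their strands -/
theorem net_inj (hC : Conn src tgt) {N N' : Net Ver (p + 1) k} (h0 : N.1 0 = N'.1 0)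
    (hw : ∀ e, wlk src N e = wlk src N' e) (hs : ∀ e, stp src tgt N e = stp src tgt N' e) :
    N = N' := by
  have hd : ∀ e, N.1 (tgt e) - N.1 (src e) = N'.1 (tgt e) - N'.1 (src e) := by
    intro e
    rw [wlk_last, wlk_last, hs e]
    congr 1
    simp only [hw e]
  have hv : ∀ j, N.1 j = N'.1 j := by
    intro j
    have hj := hC j
    induction hj with
    | refl => exact h0
    | tail _ h ih =>
      obtain ⟨e, ⟨rfl, rfl⟩ | ⟨rfl, rfl⟩⟩ := h
      · have := hd e
        rw [ih] at this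
        exact sub_left_injective this
      · have := hd e
        rw [ih] at this
        exact sub_right_injective this
  refine Prod.ext (funext hv) (funext fun e => ?_)
  have h3 := hw e
  unfold wlk at h3
  rw [hv (src e)] at h3
  have h4 := List.map_injective_iff.2
    (fun x y (h : x + -N'.1 (src e) = y + -N'.1 (src e)) => add_right_cancel h) h3
  exact (List.cons.inj h4).2

/-- the networks are bounded -/
theorem bdd (hC : Conn src tgt) (h0 : ∀ N, Q N → N.1 0 = 0) : ∃ b, Bdd X A src tgt Q b := by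
  have hstr : ∀ N, Ok A src tgt Q N → ∀ e, (∀ x ∈ N.1 (src e) :: N.2 e,
      x ∈ X.bx (N.1 (src e)) (lenN N)) ∧ N.1 (tgt e) ∈ X.bx (N.1 (src e)) (lenN N) := by
    intro N hN e
    have h1 := chain_box Z (N.2 e) (N.1 (src e)) (N.2 e).length (chain_src hN e) (by simp)
    have h2 := len_le N e
    refine ⟨fun x hx => X.mono _ _ _ (by omega) (h1 x hx), X.mono _ _ _ h2 ?_⟩
    exact X.tri _ _ _ _ _ (h1 _ (List.getLast_mem (List.cons_ne_nil _ _)))
      (Z.step _ _ (last_src hN e))
  have hv : ∀ j, ∃ n : ℕ, ∀ N, Ok A src tgt Q N → N.1 j ∈ X.bx X.o (n * lenN N) := by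
    intro j
    have hj := hC j
    induction hj with
    | refl =>
      refine ⟨0, fun N hN => ?_⟩
      rw [h0 N hN.q, ← hZ.o]
      exact X.self _ _
    | tail _ h ih =>
      obtain ⟨n, ih⟩ := ih
      obtain ⟨e, ⟨rfl, rfl⟩ | ⟨rfl, rfl⟩⟩ := h
      · refine ⟨n + 1, fun N hN => ?_⟩
        rw [Nat.add_mul, Nat.one_mul]
        exact X.tri _ _ _ _ _ (ih N hN) (hstr N hN e).2
      · refine ⟨n + 1, fun N hN => ?_⟩
        rw [Nat.add_mul, Nat.one_mul]
        exact X.tri _ _ _ _ _ (ih N hN) (X.symm _ _ _ (hstr N hN e).2)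
  choose n hn using hv
  have hle : ∀ j, n j + 1 ≤ ∑ j, n j + 1 := fun j =>
    Nat.add_le_add_right (single_le_sum (f := n) (fun _ _ => Nat.zero_le _) (mem_univ j)) 1
  refine ⟨∑ j, n j + 1, fun N hN => ⟨fun j => ?_, fun e x hx => ?_⟩⟩
  · exact X.mono _ _ _ (Nat.mul_le_mul_right _ ((Nat.le_succ _).trans (hle j))) (hn j N hN)
  · refine X.mono _ _ _ (Nat.mul_le_mul_right _ (hle (src e))) ?_
    rw [Nat.add_mul, Nat.one_mul]
    exact X.tri _ _ _ _ _ (hn (src e) N hN)
      ((hstr N hN e).1 x (List.mem_cons_of_mem _ hx))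

/-- sums over networks are bounded by products of sums over walks -/
theorem net_sum (hC : Conn src tgt) (h0 : ∀ N, Q N → N.1 0 = 0) (S : Finset (Net Ver (p + 1) k))
    (hS : ∀ N ∈ S, Ok A src tgt Q N) (M : ℕ) (hM : ∀ N ∈ S, ∀ e, (N.2 e).length ≤ M)
    (H : Fin k → List Ver → ℝ) (hH : ∀ e u, 0 ≤ H e u) :
    ∑ N ∈ S, ∏ e, H e (wlk src N e) ≤
      (X.g 1 : ℝ) ^ k * ∏ e, ∑ n ∈ range (M + 1), ∑ u ∈ Kw X A n, H e u := by
  obtain ⟨V, hV⟩ : ∃ V : Finset (List Ver), V = (range (M + 1)).biUnion (Kw X A) := ⟨_, rfl⟩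
  have hd : Set.PairwiseDisjoint (↑(range (M + 1)) : Set ℕ) (Kw X A) := by
    intro n _ n' _ hne
    rw [Function.onFun, Finset.disjoint_left]
    intro u hu hu'
    rw [mem_K Z] at hu hu'
    omega
  have e1 : ∀ e, ∑ n ∈ range (M + 1), ∑ u ∈ Kw X A n, H e u = ∑ u ∈ V, H e u := by
    intro e
    rw [hV, sum_biUnion hd]
  have e2 : ∑ N ∈ S, ∏ e, H e (wlk src N e) =
      ∑ φ ∈ S.image (fun N e => (wlk src N e, stp src tgt N e)), ∏ e, H e (φ e).1 := by
    rw [sum_image]
    intro N hN N' hN' h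
    have h1 := fun e => congrFun h e
    simp only [Prod.mk.injEq] at h1
    refine net_inj hC ?_ (fun e => (h1 e).1) (fun e => (h1 e).2)
    rw [h0 N (hS N hN).q, h0 N' (hS N' hN').q]
  have e3 : S.image (fun N e => (wlk src N e, stp src tgt N e)) ⊆
      Fintype.piFinset (fun _ : Fin k => V ×ˢ X.bx X.o 1) := by
    intro φ hφ
    rw [mem_image] at hφ
    obtain ⟨N, hN, rfl⟩ := hφ
    rw [Fintype.mem_piFinset]
    intro e
    rw [mem_product, hV, mem_biUnion]
    refine ⟨⟨(N.2 e).length, ?_, wlk_mem hZ (hS N hN) e⟩, stp_mem hZ (hS N hN) e⟩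
    rw [mem_range]
    have := hM N hN e
    omega
  rw [e2]
  calc ∑ φ ∈ S.image (fun N e => (wlk src N e, stp src tgt N e)), ∏ e, H e (φ e).1
      ≤ ∑ φ ∈ Fintype.piFinset (fun _ : Fin k => V ×ˢ X.bx X.o 1), ∏ e, H e (φ e).1 :=
        sum_le_sum_of_subset_of_nonneg e3 fun φ _ _ => prod_nonneg fun e _ => hH e _
    _ = ∏ e : Fin k, ∑ ψ ∈ V ×ˢ X.bx X.o 1, H e ψ.1 :=
        (Finset.prod_univ_sum (fun _ => V ×ˢ X.bx X.o 1) (fun e ψ => H e ψ.1)).symm
    _ ≤ ∏ e : Fin k, (X.g 1 : ℝ) * ∑ u ∈ V, H e u := by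
        refine prod_le_prod (fun e _ => sum_nonneg fun ψ _ => hH e _) fun e _ => ?_
        rw [sum_product]
        simp only [sum_const, nsmul_eq_mul]
        rw [← mul_sum]
        refine mul_le_mul_of_nonneg_right ?_ (sum_nonneg fun u _ => hH e u)
        exact_mod_cast X.card_bx X.o 1
    _ = (X.g 1 : ℝ) ^ k * ∏ e, ∑ n ∈ range (M + 1), ∑ u ∈ Kw X A n, H e u := by
        rw [prod_mul_distrib, prod_const, card_univ, Fintype.card_fin]
        congr 1
        exact prod_congr rfl fun e _ => (e1 e).symm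

/-- translated walks have as many downward moves -/
theorem B_map (a : Ver) (l : List Ver) :
    (B Z (l.map (fun x => x + a))).card ≤ (B Z l).card := by
  refine card_le_card_of_injOn
    (fun q => (q.1.map (fun x => x + -a), q.2.map (fun x => x + -a))) ?_ ?_
  · intro q hq
    rw [mem_coe, mem_B] at hq
    rw [mem_coe, mem_B]
    have h1 := hZ.T (-a) _ _ hq.1
    refine ⟨h1, ?_, fun x hx hx' => absurd (hZ.sub _ _ h1 x hx) hx'⟩
    have h2 := hq.2.1.map (fun x => x + -a)
    rw [List.map_map] at h2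
    have e : ((fun x => x + -a) ∘ fun x => x + a) = (id : Ver → Ver) := by
      funext x
      simp
    rw [e, List.map_id] at h2
    exact h2
  · rintro ⟨q1, q2⟩ _ ⟨r1, r2⟩ _ h
    simp only [Prod.mk.injEq] at h
    have hi : Function.Injective (List.map (fun x : Ver => x + -a)) :=
      List.map_injective_iff.2 fun x y h => add_right_cancel h
    exact Prod.ext (hi h.1) (hi h.2)

/-- a network has at least as many downward moves on a strand as the walk, up to a constant -/
theorem B_wlk {b : ℕ} (hb : Bdd X A src tgt Q b) {N : Net Ver (p + 1) k} (hN : Ok A src tgt Q N)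
    (e : Fin k) : (B Z (wlk src N e)).card ≤ ((BN Z N).filter (At N e)).card + c0 Z := by
  refine (B_map hZ _ _).trans ?_
  have h1 : B Z (N.1 (src e) :: N.2 e) ⊆ (BN Z N).filter (At N e) ∪ cand Z (N.1 (src e)) := by
    intro q hq
    rw [mem_B] at hq
    rw [mem_union]
    by_cases ha : N.1 (src e) ∈ q.2
    · right
      exact mem_cand Z hq.1 (List.mem_append_right _ ha)
    · left
      have h2 : q.2 <:+: [] ++ N.1 (src e) :: N.2 e := by simpa using hq.2.1
      have h3 : q.2 <:+: N.2 e := by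
        rcases infix_split h2 ha with h | h
        · rw [List.infix_nil] at h
          exact absurd h (ne_nil (Z.pair _ _ hq.1).symm)
        · exact h
      rw [mem_filter, mem_BN]
      refine ⟨⟨hq.1, ⟨e, h3⟩, fun x hx hx' => absurd (hZ.sub _ _ hq.1 x hx) hx'⟩, ?_⟩
      obtain ⟨x, hx1, hx2, hx3⟩ := hd_of (Z.pair _ _ hq.1)
      exact ⟨x, hx1, h3.subset hx3⟩
  exact (card_le_card h1).trans ((card_union_le _ _).trans
    (Nat.add_le_add_left (card_cand Z _) _))

end

end Pool.Agent.U198.NW
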