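import Pool.Agent.U198.NW.Mul
import Pool.Agent.U198.AC.MxP
import Pool.Agent.N929.EG.Three
import Pool.Agent.N546.EG.CNT3
import Pool.Agent.R965.HP.End

/-!
# Networks: the three lattices
-/

set_option autoImplicit false
set_option linter.unusedVariables false

namespace Pool.Agent.U198.NW

open Finset Filter Topology Pool.Agent.N929.EG Pool.Agent.N169.EG
open scoped Classical

noncomputable section

/-- series with coefficients of exponential growth `μ` -/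
theorem root_sum {a : ℕ → ℝ} {μ : ℝ} (ha : ∀ n, 0 ≤ a n) (hμ : 0 < μ)
    (h : Tendsto (fun n : ℕ => a n ^ (1 / (n : ℝ))) atTop (𝓝 μ)) (q : ℕ) (x : ℝ) (hx : 0 ≤ x)
    (hx1 : μ * x < 1) : Summable (fun n : ℕ => (a n * ((n : ℝ) + 1) ^ q) * x ^ n) := by
  obtain ⟨τ, hτ⟩ : ∃ τ : ℝ, τ = μ + (1 - μ * x) / (2 * (x + 1)) := ⟨_, rfl⟩
  have h1 : μ < τ := by
    rw [hτ]
    have : 0 < (1 - μ * x) / (2 * (x + 1)) := by
      apply div_pos <;> linarith
    linarith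
  have h2 : τ * x < 1 := by
    rw [hτ, add_mul]
    have : (1 - μ * x) / (2 * (x + 1)) * x ≤ (1 - μ * x) / 2 := by
      rw [div_mul_eq_mul_div, div_le_div_iff₀ (by linarith) (by norm_num)]
      nlinarith
    linarith
  have h3 := Pool.Agent.N738.AC.sum_pp q (τ * x) (mul_nonneg (by linarith) hx) h2
  refine h3.of_norm_bounded_eventually_nat ?_
  filter_upwards [h.eventually_lt_const h1, eventually_ge_atTop 1] with n hn hn1
  have hn0 : (n : ℝ) ≠ 0 := by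
    have : n ≠ 0 := by omega
    exact_mod_cast this
  have h4 : a n ≤ τ ^ n := by
    have h5 : a n = (a n ^ (1 / (n : ℝ))) ^ n := by
      rw [← Real.rpow_natCast, ← Real.rpow_mul (ha n), one_div, inv_mul_cancel₀ hn0,
        Real.rpow_one]
    rw [h5]
    exact pow_le_pow_left₀ (Real.rpow_nonneg (ha n) _) hn.le n
  rw [Real.norm_of_nonneg (mul_nonneg (mul_nonneg (ha n) (by positivity)) (by positivity)), mul_pow]
  calc a n * ((n : ℝ) + 1) ^ q * x ^ n ≤ τ ^ n * ((n : ℝ) + 1) ^ q * x ^ n := by gcongr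
    _ = _ := by ring

/-- poor walks -/
theorem poor_conv {a : ℕ → ℕ → ℝ} {μ : ℝ} (hμ : 1 ≤ μ)
    (h : ∃ (M0 : ℕ) (ρ C0 : ℝ), 1 ≤ M0 ∧ 0 ≤ ρ ∧ ρ < μ ∧ ∀ n : ℕ, a M0 n ≤ C0 * ρ ^ n) :
    ∃ (M : ℕ) (θ C' : ℝ), 1 ≤ M ∧ 0 < θ ∧ θ < 1 ∧ 0 ≤ C' ∧ ∀ n : ℕ, a M n ≤ C' * (θ * μ) ^ n := by
  obtain ⟨M, ρ, C0, hM, hρ, hρμ, h⟩ := h
  have hμ0 : 0 < μ := by linarith
  refine ⟨M, max (ρ / μ) (1 / 2), |C0|, hM, lt_max_of_lt_right (by norm_num), ?_, abs_nonneg _,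
    fun n => ?_⟩
  · refine max_lt ?_ (by norm_num)
    rwa [div_lt_one hμ0]
  · have h1 : ρ ≤ max (ρ / μ) (1 / 2) * μ := by
      calc ρ = ρ / μ * μ := by field_simp
        _ ≤ _ := mul_le_mul_of_nonneg_right (le_max_left _ _) hμ0.le
    calc a M n ≤ C0 * ρ ^ n := h n
      _ ≤ |C0| * ρ ^ n := mul_le_mul_of_nonneg_right (le_abs_self _) (by positivity)
      _ ≤ _ := mul_le_mul_of_nonneg_left (pow_le_pow_left₀ hρ h1 n) (abs_nonneg _)

/-- what is proved for a lattice -/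
def Cont {Ver : Type} [AddCommGroup Ver] (A : Ver → Ver → Prop) (μ : ℝ) (s : ℕ) : Prop :=
  1 ≤ μ ∧ ∃ c : ℝ, 0 < c ∧ ∀ (p k : ℕ) (src tgt : Fin k → Fin (p + 1))
      (Q : Net Ver (p + 1) k → Prop),
      Conn src tgt → Ins Q → (∀ N, Q N → N.1 0 = 0) →
      ∀ (g : (Fin (p + 1) → Ver) → ℂ) (h : (Fin (p + 1) → Ver) → Fin k → Ver → ℝ) (C₀ : ℝ) (q : ℕ),
      (∀ v e x, 0 ≤ h v e x ∧ h v e x ≤ 1) →
      (∀ w, Ok A src tgt Q w → ‖g w.1‖ ≤ C₀ * ((lenN w : ℝ) + 1) ^ q) →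
      ∃ F : (Fin k → ℂ) → ℂ, DifferentiableOn ℂ F (Cube k (Pool.Agent.N929.AC.Om c μ s)) ∧
        ∀ z : Fin k → ℂ, (∀ e, μ * ‖z e‖ < 1) →
          HasSum (fun w : {w // Ok A src tgt Q w} =>
            g w.1.1 * (((Wt h w.1 : ℝ) : ℂ) * mon z w.1)) (F z)

theorem cont_of {Ver : Type} [AddCommGroup Ver] {A : Ver → Ver → Prop} {X : Geo Ver}
    (Z : Rul X A) (hZ : Inv Z) {μ : ℝ} (hμ : 1 ≤ μ)
    (hr : Tendsto (fun n : ℕ => ((Kw X A n).card : ℝ) ^ (1 / (n : ℝ))) atTop (𝓝 μ))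
    (hp : ∃ (M : ℕ) (θ C' : ℝ), 1 ≤ M ∧ 0 < θ ∧ θ < 1 ∧ 0 ≤ C' ∧ ∀ n : ℕ,
      (((Kw X A n).filter (fun u => M * (B Z u).card ≤ n)).card : ℝ) ≤ C' * (θ * μ) ^ n) :
    Cont A μ Z.s :=
  ⟨hμ, net_main Z hZ hμ (fun q x hx hx1 =>
    root_sum (fun n => Nat.cast_nonneg _) (by linarith) hr q x hx hx1) hp⟩

/-! ### planar lattices -/

theorem Kw_eq {A : ℤ × ℤ → ℤ × ℤ → Prop} (Z : TH966.AK.Rule A) (hs : 1 ≤ Z.s) (n : ℕ) :
    Kw X2 A n = TH966.AK.Kw A n := by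
  ext w
  rw [mem_K (toRul Z hs), Z.mem_K]
  rfl

theorem B_eq {A : ℤ × ℤ → ℤ × ℤ → Prop} (Z : TH966.AK.Rule A) (hs : 1 ≤ Z.s)
    (w : List (ℤ × ℤ)) : B (toRul Z hs) w = Z.B w := by
  ext q
  rw [mem_B, Z.mem_B]
  rfl

theorem cont2 (L : H982.Lat) {A : ℤ × ℤ → ℤ × ℤ → Prop} (Z : TH966.AK.Rule A) (hs : 1 ≤ Z.s)
    {ψ : ℤ × ℤ → ℤ × ℤ} {R : ℕ → ℤ × ℤ → Prop} (H : @H982.Coord L A ψ R)
    (hZ : Inv (toRul Z hs))
    (hp : ∃ (M0 : ℕ) (ρ C0 : ℝ), 1 ≤ M0 ∧ 0 ≤ ρ ∧ ρ < @H982.mu L ∧ ∀ n : ℕ,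
      (((TH966.AK.Kw A n).filter (fun w => M0 * (Z.B w).card ≤ n)).card : ℝ) ≤ C0 * ρ ^ n) :
    Cont A (@H982.mu L) Z.s := by
  have hμ := @H982.one_le_mu L
  refine cont_of (toRul Z hs) hZ hμ ?_ ?_
  · refine (@H982.tendsto_root L).congr fun n => ?_
    rw [Kw_eq Z hs, Pool.Agent.R965.HP.card_full Z H n]
  · have h1 := poor_conv (a := fun M n =>
      (((TH966.AK.Kw A n).filter (fun w => M * (Z.B w).card ≤ n)).card : ℝ)) hμ hp
    obtain ⟨M, θ, C', h2, h3, h4, h5, h6⟩ := h1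
    refine ⟨M, θ, C', h2, h3, h4, h5, fun n => ?_⟩
    rw [Kw_eq Z hs]
    simp only [B_eq Z hs]
    exact h6 n

theorem inv_sq : Inv (toRul Pool.Agent.R965.HP.Sq.rule (by show 1 ≤ 2; norm_num)) where
  o := rfl
  adj a x y h := by
    have h' : |x.1 - y.1| + |x.2 - y.2| = 1 := h
    show |(x + a).1 - (y + a).1| + |(x + a).2 - (y + a).2| = 1
    simpa using h'
  T a U U' h := by
    obtain ⟨p, v, w, r, rfl, rfl, h1, h2, h3, h4, h5, h6⟩ := h
    have key : ∀ x y, Pool.Agent.R965.HP.Sq.A x y → Pool.Agent.R965.HP.Sq.A (x + a) (y + a) := by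
      intro x y h
      have h' : |x.1 - y.1| + |x.2 - y.2| = 1 := h
      show |(x + a).1 - (y + a).1| + |(x + a).2 - (y + a).2| = 1
      simpa using h'
    exact ⟨p + a, v + a, w + a, r + a, rfl, rfl, key _ _ h1, key _ _ h2, key _ _ h3, key _ _ h4,
      fun h => h5 (add_right_cancel h), fun h => h6 (add_right_cancel h)⟩
  sub U U' h x hx := by
    obtain ⟨p, v, w, r, rfl, rfl, -⟩ := h
    simp only [List.mem_cons, List.not_mem_nil, or_false] at hx ⊢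
    tauto

theorem inv_tri : Inv (toRul TH966.AK.Tri.rule (by show 1 ≤ 1; norm_num)) where
  o := rfl
  adj a x y h := by
    have h' : y - x ∈ TH966.AK.Tri.dirs := h
    show y + a - (x + a) ∈ TH966.AK.Tri.dirs
    rwa [add_sub_add_right_eq_sub]
  T a U U' h := by
    obtain ⟨p, v, r, rfl, rfl, h1, h2, h3⟩ := h
    have key : ∀ x y, TH966.AK.Tri.A x y → TH966.AK.Tri.A (x + a) (y + a) := by
      intro x y h
      have h' : y - x ∈ TH966.AK.Tri.dirs := h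
      show y + a - (x + a) ∈ TH966.AK.Tri.dirs
      rwa [add_sub_add_right_eq_sub]
    exact ⟨p + a, v + a, r + a, rfl, rfl, key _ _ h1, key _ _ h2, key _ _ h3⟩
  sub U U' h x hx := by
    obtain ⟨p, v, r, rfl, rfl, -⟩ := h
    simp only [List.mem_cons, List.not_mem_nil, or_false] at hx ⊢
    tauto

theorem cont_sq : Cont Pool.Agent.R965.HP.Sq.A (@H982.mu H982P.sqL) 2 :=
  cont2 H982P.sqL Pool.Agent.R965.HP.Sq.rule _ H982P.coord_sq inv_sq Pool.Agent.R965.HP.sq_poor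

theorem cont_tri : Cont TH966.AK.Tri.A (@H982.mu H982P.triL) 1 := by
  obtain ⟨φ, R, htri, -⟩ := Pool.Agent.R965.HP.coord_triA
  exact cont2 H982P.triL TH966.AK.Tri.rule _ htri inv_tri Pool.Agent.R965.HP.tri_poor

/-! ### the cubic lattice -/

section three

open KN TH966.KO TH966.KO.BR Pool.Agent.N953.EG

theorem inv_3 : Inv R3 where
  o := rfl
  adj a x y h := by
    obtain ⟨d, rfl⟩ := h
    exact ⟨d, by abel⟩
  T a U U' h := by
    obtain ⟨p, d, e, h1, rfl, rfl⟩ := h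
    refine ⟨p + a, d, e, h1, ?_, ?_⟩
    · simp only [List.map_cons, List.map_nil]
      rw [add_right_comm]
    · simp only [List.map_cons, List.map_nil]
      rw [add_right_comm p (vec d) a, add_right_comm (p + vec d) (vec e) a,
        add_right_comm p (vec d) a, add_right_comm p (vec e) a]
  sub U U' h x hx := by
    obtain ⟨p, d, e, h1, rfl, rfl⟩ := h
    simp only [List.mem_cons, List.not_mem_nil, or_false] at hx ⊢
    tauto

theorem Kw3 (n : ℕ) : Kw X3 A3 n = (SS n).image (fun u => (path u).reverse) := by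
  ext w
  rw [mem_K R3, mem_image]
  have h := Pool.Agent.N558.EG.wk3 n w
  constructor
  · intro h1
    obtain ⟨u, hu, rfl⟩ := h.1 h1
    exact ⟨u, hu, rfl⟩
  · rintro ⟨u, hu, rfl⟩
    exact h.2 ⟨u, hu, rfl⟩

theorem card3 (n : ℕ) : (Kw X3 A3 n).card = c n := by
  rw [Kw3, card_image_of_injective _ (fun u v h => path_inj u v (List.reverse_injective h)),
    card_SS]

theorem pat3 : ∃ (M : ℕ) (θ C' : ℝ), 1 ≤ M ∧ 0 < θ ∧ θ < 1 ∧ 0 ≤ C' ∧ ∀ n : ℕ,
      (((Kw X3 A3 n).filter (fun u => M * (B R3 u).card ≤ n)).card : ℝ) ≤ C' * (θ * μ) ^ n := by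
  have hinv : TH966.KO.Inv (fun _ => True) := fun w _ i d _ => Iff.rfl
  obtain ⟨θ, C, hθ0, hθ1, hbad⟩ := o_pattern (fun _ => True) hinv μ (by linarith [mu_ge]) mu_le
    (fun τ hτ => by
      obtain ⟨C, _, hC⟩ := growth τ hτ
      refine ⟨C, fun n => le_trans ?_ (hC n)⟩
      exact_mod_cast a_le n)
  have hμ : 0 < μ := by linarith [mu_one]
  have hθμ : 0 < θ * μ := mul_pos hθ0 hμ
  obtain ⟨C', hC'⟩ : ∃ C' : ℝ, C' = |C| + ∑ m ∈ range 4, (c m : ℝ) / (θ * μ) ^ m := ⟨_, rfl⟩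
  have hsum0 : 0 ≤ ∑ m ∈ range 4, (c m : ℝ) / (θ * μ) ^ m :=
    sum_nonneg fun m _ => by positivity
  refine ⟨10 ^ 7, θ, C', by norm_num, hθ0, hθ1, ?_, fun n => ?_⟩
  · rw [hC']
    positivity
  · rcases Nat.lt_or_ge n 4 with hn | hn
    · have e1 : (((Kw X3 A3 n).filter (fun u => 10 ^ 7 * (B R3 u).card ≤ n)).card : ℝ) ≤ c n := by
        rw [← card3]
        exact_mod_cast card_filter_le _ _
      have e2 : (c n : ℝ) / (θ * μ) ^ n ≤ ∑ m ∈ range 4, (c m : ℝ) / (θ * μ) ^ m :=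
        single_le_sum (f := fun m => (c m : ℝ) / (θ * μ) ^ m)
          (fun m _ => by positivity) (mem_range.2 hn)
      have e3 : (c n : ℝ) / (θ * μ) ^ n ≤ C' := by
        rw [hC']
        linarith [abs_nonneg C]
      rw [div_le_iff₀ (by positivity)] at e3
      linarith
    · have e1 : (((Kw X3 A3 n).filter (fun u => 10 ^ 7 * (B R3 u).card ≤ n)).card : ℝ) ≤
          TH966.KO.bad (fun _ => True) n := by
        unfold TH966.KO.bad
        have e2 : (Kw X3 A3 n).filter (fun u => 10 ^ 7 * (B R3 u).card ≤ n) ⊆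
            ((TH966.KO.K (fun _ => True) n).filter
            (fun w => 10 ^ 7 * fr w ≤ n ∨ 10 ^ 7 * bu w ≤ n)).image
            (fun u => (path u).reverse) := by
          intro w hw
          rw [mem_filter, Kw3, mem_image] at hw
          obtain ⟨⟨u, hu, rfl⟩, hw2⟩ := hw
          rw [mem_image]
          refine ⟨u, ?_, rfl⟩
          obtain ⟨hl, hsaw⟩ := mem_SS.1 hu
          rw [mem_filter, TH966.KO.mem_K]
          refine ⟨⟨hl, ⟨by omega, hsaw⟩, trivial⟩, ?_⟩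
          right
          have e4 := (Pool.Agent.N546.EG.cnt3 n u hu (B R3 (path u).reverse)).2
            (fun q => by rw [mem_B]; rfl)
          have := Nat.mul_le_mul_left (10 ^ 7) e4
          omega
        exact_mod_cast (card_le_card e2).trans card_image_le
      refine e1.trans ((hbad n).trans ?_)
      have e5 : C ≤ C' := by
        rw [hC']
        have := le_abs_self C
        linarith
      exact mul_le_mul_of_nonneg_right e5 (by positivity)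

theorem cont_3 : Cont A3 TH966.KO.μ 2 := by
  refine cont_of R3 inv_3 mu_one ?_ pat3
  simp only [card3]
  exact Pool.Agent.H46R2.K3.P.tendsto_c

end three

end

end Pool.Agent.U198.NW
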