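import Pool.Agent.N45.AC.VIT
import Pool.Agent.Helper417.Mer.HartogsExt

/-!
# Vitali's theorem in several variables
-/

set_option autoImplicit false

namespace Pool.Agent.U198.NW

open Set Filter Topology Metric Asymptotics

/-- the domain with all coordinates in `Ω` -/
def Cube (k : ℕ) (Ω : Set ℂ) : Set (Fin k → ℂ) := {z | ∀ e, z e ∈ Ω}

theorem cube_open {k : ℕ} {Ω : Set ℂ} (hΩ : IsOpen Ω) : IsOpen (Cube k Ω) := by
  have : Cube k Ω = Set.pi univ (fun _ => Ω) := by
    ext z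
    simp [Cube, Set.mem_pi]
  rw [this]
  exact isOpen_set_pi Set.finite_univ fun _ _ => hΩ

theorem diff_update {k : ℕ} (z : Fin k → ℂ) (e : Fin k) :
    Differentiable ℂ (fun ζ : ℂ => Function.update z e ζ) := by
  rw [differentiable_pi]
  intro j
  rcases eq_or_ne j e with rfl | h
  · simp only [Function.update_self]
    exact differentiable_id
  · simp only [Function.update_of_ne h]
    exact differentiable_const _

/-- pointwise convergence -/
theorem vit_conv {k : ℕ} {Ω D : Set ℂ} (hΩ : IsOpen Ω) (hpre : IsPreconnected Ω) (hD : IsOpen D)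
    (hDn : D.Nonempty) (hDΩ : D ⊆ Ω) (P : ℕ → (Fin k → ℂ) → ℂ) (hP : ∀ N, Differentiable ℂ (P N))
    (hb : ∀ z ∈ Cube k Ω, ∃ r B : ℝ, 0 < r ∧ ∀ N, ∀ z' ∈ ball z r ∩ Cube k Ω, ‖P N z'‖ ≤ B)
    (hc : ∀ z ∈ Cube k D, ∃ l, Tendsto (fun N => P N z) atTop (𝓝 l)) (J : Finset (Fin k)) :
    ∀ z ∈ Cube k Ω, (∀ e, e ∉ J → z e ∈ D) → ∃ l, Tendsto (fun N => P N z) atTop (𝓝 l) := by
  induction J using Finset.induction_on with
  | empty => exact fun z _ hz => hc z fun e => hz e (Finset.notMem_empty e)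
  | insert e J he ih =>
    intro z hz hz'
    have hup : ∀ ζ ∈ Ω, Function.update z e ζ ∈ Cube k Ω := by
      intro ζ hζ j
      rcases eq_or_ne j e with rfl | h
      · rw [Function.update_self]; exact hζ
      · rw [Function.update_of_ne h]; exact hz j
    obtain ⟨f, -, hf⟩ := Pool.Agent.N45.AC.vit Ω D hΩ hpre hD hDn hDΩ
      (fun N ζ => P N (Function.update z e ζ))
      (fun N => ((hP N).comp (diff_update z e)).differentiableOn) (fun ζ hζ => by
        obtain ⟨r, B, hr, h⟩ := hb _ (hup ζ hζ)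
        refine ⟨r, B, hr, fun N ζ' hζ' => h N _ ⟨?_, hup ζ' hζ'.2⟩⟩
        rw [mem_ball, dist_pi_lt_iff hr]
        intro j
        rcases eq_or_ne j e with rfl | h
        · rw [Function.update_self, Function.update_self]; exact hζ'.1
        · rw [Function.update_of_ne h, Function.update_of_ne h, dist_self]; exact hr)
      (fun ζ hζ => by
        refine ih _ (hup ζ (hDΩ hζ)) fun j hj => ?_
        rcases eq_or_ne j e with rfl | h
        · rw [Function.update_self]; exact hζ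
        · rw [Function.update_of_ne h]
          exact hz' j fun hc => (Finset.mem_insert.1 hc).elim h hj)
    refine ⟨f (z e), ?_⟩
    have h := hf (z e) (hz e)
    simp only [Function.update_eq_self] at h
    exact h

/-- **Vitali's theorem** in several variables -/
theorem vitk {k : ℕ} {Ω D : Set ℂ} (hΩ : IsOpen Ω) (hpre : IsPreconnected Ω) (hD : IsOpen D)
    (hDn : D.Nonempty) (hDΩ : D ⊆ Ω) (P : ℕ → (Fin k → ℂ) → ℂ) (hP : ∀ N, Differentiable ℂ (P N))
    (hb : ∀ z ∈ Cube k Ω, ∃ r B : ℝ, 0 < r ∧ ∀ N, ∀ z' ∈ ball z r ∩ Cube k Ω, ‖P N z'‖ ≤ B)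
    (hc : ∀ z ∈ Cube k D, ∃ l, Tendsto (fun N => P N z) atTop (𝓝 l)) :
    ∃ f : (Fin k → ℂ) → ℂ, DifferentiableOn ℂ f (Cube k Ω) ∧
      ∀ z ∈ Cube k Ω, Tendsto (fun N => P N z) atTop (𝓝 (f z)) := by
  have h1 : ∀ z, ∃ l : ℂ, z ∈ Cube k Ω → Tendsto (fun N => P N z) atTop (𝓝 l) := by
    intro z
    by_cases hz : z ∈ Cube k Ω
    · obtain ⟨l, hl⟩ := vit_conv hΩ hpre hD hDn hDΩ P hP hb hc Finset.univ z hz
        fun e he => absurd (Finset.mem_univ e) he
      exact ⟨l, fun _ => hl⟩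
    · exact ⟨0, fun h => absurd h hz⟩
  choose f hf using h1
  refine ⟨f, fun a ha => DifferentiableAt.differentiableWithinAt ?_, hf⟩
  obtain ⟨r, B, hr, hB⟩ := hb a ha
  obtain ⟨r', hr', hsub⟩ := Metric.isOpen_iff.1 (cube_open (k := k) hΩ) a ha
  obtain ⟨R, hR, hRr, hRr'⟩ : ∃ R : ℝ, 0 < R ∧ R ≤ r ∧ R ≤ r' :=
    ⟨min r r', lt_min hr hr', min_le_left _ _, min_le_right _ _⟩
  have hBR : ∀ N, ∀ z ∈ ball a R, ‖P N z‖ ≤ B := fun N z hz =>
    hB N z ⟨ball_subset_ball hRr hz, hsub (ball_subset_ball hRr' hz)⟩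
  have hin : ∀ z ∈ ball a R, z ∈ Cube k Ω := fun z hz => hsub (ball_subset_ball hRr' hz)
  have e1 : ∀ N, fderiv ℂ (P N) a ∈ closedBall (0 : (Fin k → ℂ) →L[ℂ] ℂ) (4 * B / R) := by
    intro N
    rw [mem_closedBall, dist_zero_right]
    exact Pool.Agent.Helper417.Mer.Hartogs673.norm_fderiv_le_half (c := a)
      (hP N).differentiableOn (hBR N) (mem_ball_self (by linarith))
  haveI : ProperSpace ((Fin k → ℂ) →L[ℂ] ℂ) := FiniteDimensional.proper ℂ _
  obtain ⟨E, -, φ, hφ, hE⟩ := (isCompact_closedBall (0 : (Fin k → ℂ) →L[ℂ] ℂ)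
    (4 * B / R)).tendsto_subseq e1
  have e2 : ∀ z ∈ ball a R, ‖f z - f a - E (z - a)‖ ≤ 4 * B * (‖z - a‖ / R) ^ 2 := by
    intro z hz
    have h1 : Tendsto (fun n => P (φ n) z - P (φ n) a - fderiv ℂ (P (φ n)) a (z - a)) atTop
        (𝓝 (f z - f a - E (z - a))) := by
      refine (((hf z (hin z hz)).comp hφ.tendsto_atTop).sub
        ((hf a ha).comp hφ.tendsto_atTop)).sub ?_
      exact ((ContinuousLinearMap.apply ℂ ℂ (z - a)).continuous.tendsto E).comp hE
    refine le_of_tendsto h1.norm (Eventually.of_forall fun n => ?_)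
    exact Pool.Agent.Helper417.Mer.Hartogs673.norm_sub_sub_fderiv_le hR
      (hP _).differentiableOn (hBR _) hz
  have hO : (fun z => f z - f a - E (z - a)) =O[𝓝 a] fun z => ‖z - a‖ ^ 2 := by
    refine IsBigO.of_bound (4 * B / R ^ 2) ?_
    filter_upwards [ball_mem_nhds a hR] with z hz
    refine (e2 z hz).trans (le_of_eq ?_)
    rw [Real.norm_of_nonneg (by positivity), div_pow]
    ring
  have hd0 := (hO.hasFDerivAt (𝕜 := ℂ) one_lt_two).differentiableAt
  have hd1 : DifferentiableAt ℂ (fun z : Fin k → ℂ => f a + E (z - a)) a := by fun_prop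
  have hd2 := hd0.add hd1
  refine hd2.congr_of_eventuallyEq (Eventually.of_forall fun z => ?_)
  simp only [Pi.add_apply]
  ring

end Pool.Agent.U198.NW
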