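import Pool.Agent.U198.NW.Avg
import Pool.Agent.U198.NW.Vit
import Pool.Agent.U198.AC.Main

/-!
# Networks: analytic continuation in the fugacities of all the strands
-/

set_option autoImplicit false
set_option linter.unusedVariables false

namespace Pool.Agent.U198.NW

open Finset Filter Topology Pool.Agent.N929.EG Pool.Agent.N169.EG Pool.Agent.N929.AC
open scoped Classical

noncomputable section

theorem adm_disc {s : ℕ} {c₀ : ℝ} {ζ : ℂ} {x : ℝ} (hx : 0 < x) (h : ‖ζ‖ ≤ x) :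
    Adm s c₀ ζ x := by
  refine ⟨hx, 0, le_rfl, by simpa using h, ?_, ?_⟩
  · rw [neg_zero, Real.exp_zero, mul_one]
    refine (norm_add_le _ _).trans ?_
    rw [norm_one, norm_pow]
    have := pow_le_pow_left₀ (norm_nonneg _) h s
    linarith
  · rw [neg_zero, Real.exp_zero, mul_one]
    have := pow_pos hx s
    linarith

/-- comparison points, locally -/
theorem adm_loc (μ c₀ : ℝ) (s : ℕ) (hμ : 1 ≤ μ) (hc₀ : 0 < c₀) (hs : 1 ≤ s) :
    ∃ c₁ : ℝ, 0 < c₁ ∧ ∀ c : ℝ, 0 < c → c ≤ c₁ → ∀ ζ ∈ Om c μ s, ∃ r Y : ℝ, 0 < r ∧ 0 ≤ Y ∧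
      μ * Y < 1 ∧ ∀ ζ' ∈ Metric.ball ζ r ∩ Om c μ s, ∃ x ≤ Y, Adm s c₀ ζ' x := by
  have hμ0 : 0 < μ := by linarith
  obtain ⟨k, hk, c₁, hc₁, hang⟩ := Pool.Agent.U198.AC.ang2 μ c₀ s hμ hc₀ hs
  refine ⟨min c₁ (1 / 4), lt_min hc₁ (by norm_num), fun c hc hcc ζ hζ => ?_⟩
  have hcc1 : c ≤ c₁ := hcc.trans (min_le_left _ _)
  have hc4 : c ≤ 1 / 4 := hcc.trans (min_le_right _ _)
  obtain ⟨hO1, hO2, hO3, hcs, hcsc⟩ := Pool.Agent.N189.AC.omg c μ s hc hμ hs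
  have hadm : ∀ ζ' ∈ Om c μ s, Adm s c₀ ζ' (xx c μ s ζ') := by
    intro ζ' hζ'
    obtain ⟨h1, h2, h3⟩ := hang c hc hcc1 ζ' hζ'
    rcases le_or_gt ‖ζ'‖ (xx c μ s ζ') with h | h
    · exact adm_disc h1 h
    · obtain ⟨h4, h5⟩ := h3 h
      have := (abs_le.1 (hcs ζ')).2
      refine ⟨h1, k * (1 - cs s ζ'), mul_nonneg hk.le (by linarith), h4, h5, ?_⟩
      rw [Real.exp_neg, ← div_eq_mul_inv, le_div_iff₀ (Real.exp_pos _), one_mul]
      exact h2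
  rcases lt_or_ge (μ * ‖ζ‖) 1 with h | h
  · have h1 : ‖ζ‖ < 1 / μ := by
      rw [lt_div_iff₀ hμ0, mul_comm]
      exact h
    obtain ⟨x, hx1, hx2⟩ := exists_between h1
    have hx0 : 0 < x := (norm_nonneg ζ).trans_lt hx1
    have hx3 : μ * x < 1 := by
      rw [lt_div_iff₀ hμ0, mul_comm] at hx2
      exact hx2
    refine ⟨x - ‖ζ‖, x, by linarith, hx0.le, hx3, fun ζ' hζ' => ⟨x, le_rfl, adm_disc hx0 ?_⟩⟩
    have h2 : dist ζ' ζ < x - ‖ζ‖ := hζ'.1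
    rw [dist_eq_norm] at h2
    have h3 : ‖ζ'‖ ≤ ‖ζ' - ζ‖ + ‖ζ‖ := by
      have := norm_add_le (ζ' - ζ) ζ
      rwa [sub_add_cancel] at this
    linarith
  · have hz0 : ζ ≠ 0 := by
      rintro rfl
      simp at h
      linarith
    have hz1 : cs s ζ < 1 := by
      have h1 : μ * ‖ζ‖ < 1 + c * (1 - cs s ζ) := hζ
      by_contra h2
      push Not at h2
      nlinarith
    obtain ⟨q, hq⟩ : ∃ q : ℝ, q = (1 + cs s ζ) / 2 := ⟨_, rfl⟩
    have hq1 : cs s ζ < q := by rw [hq]; linarith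
    have hq2 : q < 1 := by rw [hq]; linarith
    have h1 : ∀ᶠ z' in 𝓝 ζ, cs s z' < q := (hcsc ζ hz0).eventually_lt_const hq1
    obtain ⟨r, hr, hr1⟩ := Metric.eventually_nhds_iff.1 h1
    have hcz := abs_le.1 (hcs ζ)
    have hX0 : 0 ≤ (1 - c * (1 - q)) / μ := by
      refine div_nonneg ?_ hμ0.le
      have : c * (1 - q) ≤ 1 / 4 * 1 :=
        mul_le_mul hc4 (by rw [hq]; linarith [hcz.1]) (by linarith) (by norm_num)
      linarith
    have hX1 : μ * ((1 - c * (1 - q)) / μ) < 1 := by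
      rw [mul_div_cancel₀ _ hμ0.ne']
      nlinarith
    refine ⟨r, (1 - c * (1 - q)) / μ, hr, hX0, hX1, fun ζ' hζ' => ⟨xx c μ s ζ', ?_, hadm ζ' hζ'.2⟩⟩
    have hz'q : cs s ζ' < q := hr1 hζ'.1
    unfold xx
    refine div_le_div_of_nonneg_right ?_ hμ0.le
    nlinarith

/-- the size of the points of the domain -/
theorem size_le {μ θ c₀ c₂ θ₂ : ℝ} {s : ℕ} (hμ : 1 ≤ μ) (hs : 1 ≤ s) (hθ : 0 < θ) (hc₀ : 0 < c₀)
    (h : ∀ c : ℝ, 0 < c → c ≤ c₂ → θ * ((1 + 2 * c) * (1 + 2 ^ s) ^ c₀) ≤ θ₂) {c : ℝ}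
    (hc : 0 < c) (hc2 : c ≤ c₂) (hc4 : c ≤ 1 / 4) {z : ℂ} (hz : z ∈ Om c μ s) :
    θ * μ * BB s c₀ z ≤ θ₂ := by
  obtain ⟨-, -, -, hcs, -⟩ := Pool.Agent.N189.AC.omg c μ s hc hμ hs
  have h1 : μ * ‖z‖ < 1 + c * (1 - cs s z) := hz
  have h2 := abs_le.1 (hcs z)
  have h3 : μ * ‖z‖ ≤ 1 + 2 * c := by nlinarith [h2.1]
  have h4 : ‖z‖ ≤ 2 := by
    have h5 : ‖z‖ ≤ μ * ‖z‖ := by nlinarith [norm_nonneg z]
    linarith
  have h5 : (1 + ‖z‖ ^ s) ^ c₀ ≤ (1 + 2 ^ s : ℝ) ^ c₀ := by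
    refine Real.rpow_le_rpow (by positivity) ?_ hc₀.le
    have := pow_le_pow_left₀ (norm_nonneg z) h4 s
    linarith
  unfold BB
  calc θ * μ * (‖z‖ * (1 + ‖z‖ ^ s) ^ c₀) = θ * ((μ * ‖z‖) * (1 + ‖z‖ ^ s) ^ c₀) := by
        ring
    _ ≤ θ * ((1 + 2 * c) * (1 + 2 ^ s) ^ c₀) := by
        refine mul_le_mul_of_nonneg_left (mul_le_mul h3 h5 (by positivity) (by positivity)) hθ.le
    _ ≤ θ₂ := h c hc hc2

theorem SN_card {Ver : Type} {p k : ℕ} {A : Ver → Ver → Prop} {X : Geo Ver} (Z : Rul X A)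
    (w : Net Ver p k) : (SN Z w).card ≤ c0 Z * lenN w := by
  unfold SN
  refine (card_filter_le _ _).trans
    ((card_biUnion_le_card_mul _ _ (c0 Z) fun x _ => card_cand Z x).trans ?_)
  rw [mul_comm]
  refine Nat.mul_le_mul_left _ ?_
  unfold sites lenN
  refine card_biUnion_le.trans (sum_le_sum fun e _ => ?_)
  exact (List.toFinset_card_le _).trans (Nat.le_succ _)

/-- **Analytic continuation** of the generating functions of networks, in the fugacities of all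
strands -/
theorem net_main {Ver : Type} [AddCommGroup Ver] {A : Ver → Ver → Prop} {X : Geo Ver}
    (Z : Rul X A) (hZ : Inv Z) {μ : ℝ} (hμ : 1 ≤ μ)
    (hgr : ∀ (q : ℕ) (x : ℝ), 0 ≤ x → μ * x < 1 →
      Summable (fun n => (((Kw X A n).card : ℝ) * ((n : ℝ) + 1) ^ q) * x ^ n))
    (hpat : ∃ (M : ℕ) (θ C' : ℝ), 1 ≤ M ∧ 0 < θ ∧ θ < 1 ∧ 0 ≤ C' ∧ ∀ n : ℕ,
      (((Kw X A n).filter (fun u => M * (B Z u).card ≤ n)).card : ℝ) ≤ C' * (θ * μ) ^ n) :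
    ∃ c : ℝ, 0 < c ∧ ∀ (p k : ℕ) (src tgt : Fin k → Fin (p + 1)) (Q : Net Ver (p + 1) k → Prop),
      Conn src tgt → Ins Q → (∀ N, Q N → N.1 0 = 0) →
      ∀ (g : (Fin (p + 1) → Ver) → ℂ) (h : (Fin (p + 1) → Ver) → Fin k → Ver → ℝ) (C₀ : ℝ) (q : ℕ),
      (∀ v e x, 0 ≤ h v e x ∧ h v e x ≤ 1) →
      (∀ w, Ok A src tgt Q w → ‖g w.1‖ ≤ C₀ * ((lenN w : ℝ) + 1) ^ q) →
      ∃ F : (Fin k → ℂ) → ℂ, DifferentiableOn ℂ F (Cube k (Om c μ Z.s)) ∧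
        ∀ z : Fin k → ℂ, (∀ e, μ * ‖z e‖ < 1) →
          HasSum (fun w : {w // Ok A src tgt Q w} =>
            g w.1.1 * (((Wt h w.1 : ℝ) : ℂ) * mon z w.1)) (F z) := by
  have hμ0 : 0 < μ := by linarith
  obtain ⟨M, θ₀, C', hM, hθ0, hθ01, hC', hp⟩ := hpat
  obtain ⟨κ, hκ, hsel⟩ := Pool.Agent.N547.EG.Sel.sel (CC Z)
  have hM' : (0 : ℝ) < M := by exact_mod_cast hM
  have hκ' : (0 : ℝ) < κ := by exact_mod_cast hκ
  have ha : (0 : ℝ) < 1 / (2 * M * κ : ℝ) := by positivity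
  obtain ⟨θ, hθ⟩ : ∃ θ : ℝ, θ = max θ₀ (Real.exp (-(1 / (2 * M * κ : ℝ)))) := ⟨_, rfl⟩
  have hθ1 : 0 < θ := by rw [hθ]; exact lt_max_of_lt_left hθ0
  have hθ2 : θ < 1 := by
    rw [hθ]
    refine max_lt hθ01 ?_
    rw [Real.exp_lt_one_iff]
    linarith
  have hθM : Real.exp (-(1 / (2 * M * κ : ℝ))) ≤ θ := by rw [hθ]; exact le_max_right _ _
  have hp' : ∀ n : ℕ, (((Kw X A n).filter (fun u => M * (B Z u).card ≤ n)).card : ℝ) ≤
      C' * (θ * μ) ^ n := by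
    intro n
    refine (hp n).trans (mul_le_mul_of_nonneg_left ?_ hC')
    refine pow_le_pow_left₀ (by positivity) ?_ n
    refine mul_le_mul_of_nonneg_right ?_ hμ0.le
    rw [hθ]
    exact le_max_left _ _
  obtain ⟨c₀, c₂, θ₂, hc₀, hcc, hc₂, h20, h21, hθ₂⟩ :=
    Pool.Agent.N738.AC.consts θ _ Z.s hθ1 hθ2 ha
  obtain ⟨c₁, hc₁, hadm⟩ := adm_loc μ c₀ Z.s hμ hc₀ Z.hs
  obtain ⟨c, hcd⟩ : ∃ c : ℝ, c = min (min c₁ (1 / 4)) c₂ := ⟨_, rfl⟩
  have hc : 0 < c := by rw [hcd]; exact lt_min (lt_min hc₁ (by norm_num)) hc₂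
  have hcc1 : c ≤ c₁ := by rw [hcd]; exact (min_le_left _ _).trans (min_le_left _ _)
  have hc4 : c ≤ 1 / 4 := by rw [hcd]; exact (min_le_left _ _).trans (min_le_right _ _)
  have hcc2 : c ≤ c₂ := by rw [hcd]; exact min_le_right _ _
  obtain ⟨hO1, hO2, hO3, hcs, hcsc⟩ := Pool.Agent.N189.AC.omg c μ Z.s hc hμ Z.hs
  refine ⟨c, hc, fun p k src tgt Q hC hQ h0 g h C₁ q hh hg => ?_⟩
  obtain ⟨b, hb⟩ := bdd hZ hC h0
  obtain ⟨C₀, hC₀⟩ : ∃ C₀ : ℝ, C₀ = |C₁| := ⟨_, rfl⟩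
  have hC₀0 : 0 ≤ C₀ := by rw [hC₀]; exact abs_nonneg _
  have hg' : ∀ w, Ok A src tgt Q w → ‖g w.1‖ ≤ C₀ * ((lenN w : ℝ) + 1) ^ q := by
    intro w hw
    refine (hg w hw).trans (mul_le_mul_of_nonneg_right ?_ (by positivity))
    rw [hC₀]
    exact le_abs_self _
  -- the polynomials
  have hex : ∀ N : ℕ, ∃ (P : (Fin k → ℂ) → ℂ), Differentiable ℂ P ∧
      (∀ (z : Fin k → ℂ) (x : Fin k → ℝ), (∀ e, Adm Z.s c₀ (z e) (x e)) → ∃ N' : ℕ,
        ‖P z‖ ≤ ∑ w ∈ KK X A src tgt Q b N', ‖g w.1‖ * ∏ e, (x e ^ ((w.2 e).length + 1) +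
          BB Z.s c₀ (z e) ^ ((w.2 e).length + 1) * fac Z M κ (wlk src w e))) ∧
      ∀ (z : Fin k → ℂ) (S : ℂ) (ε : ℝ), 0 ≤ ε → (∀ T : Finset (Net Ver (p + 1) k),
        (∀ w ∈ T, Ok A src tgt Q w) → (∀ n ≤ N, KN X A src tgt Q b n ⊆ T) →
          ‖∑ w ∈ T, g w.1 * (((Wt h w : ℝ) : ℂ) * mon z w) - S‖ ≤ ε) → ‖P z - S‖ ≤ ε := by
    intro N
    obtain ⟨N', hN'⟩ : ∃ N' : ℕ, N' = N + Z.s * (c0 Z * N) := ⟨_, rfl⟩
    obtain ⟨ι, i1, i2, Λ, hΛ1, hΛ2⟩ := hsel _ ((sysN Z hQ hb).U N') (sysN Z hQ hb).cf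
      (sysN Z hQ hb).cf_symm ((sysN Z hQ hb).deg N')
    have hfam : ∀ i, Fam (sysN Z hQ hb) (Λ i) := fun i => (hΛ1 i).2
    have hbij : ∀ i, ∃ st fl, Fill (sysN Z hQ hb) (Λ i) st fl := fun i =>
      Pool.Agent.N607.EG.bij _ _ (sysN Z hQ hb) (Λ i) (hfam i)
    choose st fl hfill using hbij
    have hΛ : SelP κ ((sysN Z hQ hb).U N') Λ := fun P hP => hΛ2 P hP
    have hS : ∀ n, ∀ w ∈ (sysN Z hQ hb).K n, ((sysN Z hQ hb).S w).card ≤ c0 Z * n := by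
      intro n w hw
      have h1 : w ∈ KN X A src tgt Q b n := hw
      rw [mem_KN hb] at h1
      rw [← h1.2]
      exact SN_card Z w
    have hT : ∀ i, ∀ w ∈ TT (sysN Z hQ hb) (Λ i) (fl i) N, lenN w ≤ N' := by
      intro i w hw
      rw [hN']
      exact TT_len (hfill i) hS hw
    have hcard : (0 : ℝ) < Fintype.card ι := by exact_mod_cast Fintype.card_pos
    have hcardC : (Fintype.card ι : ℂ) ≠ 0 := by exact_mod_cast hcard.ne'
    refine ⟨fun z => (Fintype.card ι : ℂ)⁻¹ * ∑ i, PF Z hQ hb (Λ i) g h N z, ?_, ?_, ?_⟩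
    · refine (differentiable_const _).mul ?_
      exact Differentiable.fun_sum fun i _ => PF_diff g h N
    · intro z x hx
      exact ⟨N', avg1 hZ hM hκ hfam hfill hT hΛ hcc g hh z x hx⟩
    · intro z S ε hε hT'
      have e1 : (Fintype.card ι : ℂ)⁻¹ * ∑ i, PF Z hQ hb (Λ i) g h N z - S =
          (Fintype.card ι : ℂ)⁻¹ * ∑ i, (PF Z hQ hb (Λ i) g h N z - S) := by
        rw [Finset.sum_sub_distrib, Finset.sum_const, Finset.card_univ, nsmul_eq_mul, mul_sub,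
          ← mul_assoc _ (Fintype.card ι : ℂ), inv_mul_cancel₀ hcardC, one_mul]
      simp only []
      rw [e1]
      refine (Pool.Agent.N738.AC.avg_le _ (fun _ => ε) fun i => ?_).trans (le_of_eq ?_)
      · rw [PF_eq hZ.sub (hfam i) (hfill i)]
        refine hT' _ (fun w hw => ?_) fun n hn w hw => ?_
        · have h1 : w ∈ KN X A src tgt Q b _ := TT_K (hfill i) hw
          exact ((mem_KN hb).1 h1).1
        · exact K_TT (hfill i) hn hw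
      · rw [Finset.sum_const, Finset.card_univ, nsmul_eq_mul, ← mul_assoc,
          inv_mul_cancel₀ hcard.ne', one_mul]
  choose P hP1 hP2 hP3 using hex
  -- bounds
  have hbd : ∀ z ∈ Cube k (Om c μ Z.s), ∃ r B : ℝ, 0 < r ∧
      ∀ N, ∀ z' ∈ Metric.ball z r ∩ Cube k (Om c μ Z.s), ‖P N z'‖ ≤ B := by
    intro z hz
    have h1 : ∀ e, ∃ r Y : ℝ, 0 < r ∧ 0 ≤ Y ∧ μ * Y < 1 ∧
        ∀ ζ' ∈ Metric.ball (z e) r ∩ Om c μ Z.s, ∃ x ≤ Y, Adm Z.s c₀ ζ' x := fun e =>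
      hadm c hc hcc1 (z e) (hz e)
    choose r Y hr hY0 hY1 hYx using h1
    have h2 : ∀ e, ∃ E : ℝ, 0 ≤ E ∧ ∀ (x b : ℝ), 0 ≤ x → x ≤ Y e → 0 ≤ b → θ * μ * b ≤ θ₂ →
        ∀ N : ℕ, ∑ n ∈ range (N + 1), ∑ u ∈ Kw X A n,
          (((u.length : ℝ) + 1) ^ q * (x ^ u.length + b ^ u.length * fac Z M κ u)) ≤ E := fun e =>
      single hZ hμ hgr hM hκ hθ1 hC' hθM h20 h21 hp' q (Y e) (hY0 e) (hY1 e)
    choose E hE0 hE using h2
    have h3 : IsOpen (Set.pi Set.univ fun e => Metric.ball (z e) (r e)) :=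
      isOpen_set_pi Set.finite_univ fun _ _ => Metric.isOpen_ball
    obtain ⟨ρ, hρ, hρ1⟩ := Metric.isOpen_iff.1 h3 z fun e _ => Metric.mem_ball_self (hr e)
    refine ⟨ρ, C₀ * ((X.g 1 : ℝ) ^ k * ∏ e, E e), hρ, fun N z' hz' => ?_⟩
    have h4 : ∀ e, ∃ x ≤ Y e, Adm Z.s c₀ (z' e) x := fun e =>
      hYx e (z' e) ⟨hρ1 hz'.1 e (Set.mem_univ e), hz'.2 e⟩
    choose x hx1 hx2 using h4
    obtain ⟨N', hN'⟩ := hP2 N z' x hx2
    refine hN'.trans ?_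
    have h5 := avg2 hZ hC h0 hb g hC₀0 hg'
      (fun e u => x e ^ u.length + BB Z.s c₀ (z' e) ^ u.length * fac Z M κ u)
      (fun e u => add_nonneg (pow_nonneg (hx2 e).1.le _)
        (mul_nonneg (pow_nonneg (BB_nonneg _ _ _) _) (fac_nonneg _ _ _))) N'
      (KK X A src tgt Q b N') (Finset.Subset.refl _)
    simp only [wlk_len] at h5
    refine h5.trans ?_
    refine mul_le_mul_of_nonneg_left (mul_le_mul_of_nonneg_left ?_ (by positivity)) hC₀0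
    refine prod_le_prod (fun e _ => sum_nonneg fun n _ => sum_nonneg fun u _ =>
      mul_nonneg (by positivity) (add_nonneg (pow_nonneg (hx2 e).1.le _)
        (mul_nonneg (pow_nonneg (BB_nonneg _ _ _) _) (fac_nonneg _ _ _)))) fun e _ => ?_
    exact hE e (x e) _ (hx2 e).1.le (hx1 e) (BB_nonneg _ _ _)
      (size_le hμ Z.hs hθ1 hc₀ hθ₂ hc hcc2 hc4 (hz'.2 e)) N'
  -- absolute convergence
  have hsum : ∀ z : Fin k → ℂ, (∀ e, μ * ‖z e‖ < 1) →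
      Summable (fun w : {w // Ok A src tgt Q w} =>
        g w.1.1 * (((Wt h w.1 : ℝ) : ℂ) * mon z w.1)) := by
    intro z hz
    have h2 : ∀ e, ∃ E : ℝ, 0 ≤ E ∧ ∀ (x b : ℝ), 0 ≤ x → x ≤ ‖z e‖ → 0 ≤ b → θ * μ * b ≤ θ₂ →
        ∀ N : ℕ, ∑ n ∈ range (N + 1), ∑ u ∈ Kw X A n,
          (((u.length : ℝ) + 1) ^ q * (x ^ u.length + b ^ u.length * fac Z M κ u)) ≤ E := fun e =>
      single hZ hμ hgr hM hκ hθ1 hC' hθM h20 h21 hp' q ‖z e‖ (norm_nonneg _) (hz e)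
    choose E hE0 hE using h2
    refine Summable.of_norm ?_
    refine summable_of_sum_le (fun _ => norm_nonneg _)
      (c := C₀ * ((X.g 1 : ℝ) ^ k * ∏ e, E e)) fun u => ?_
    obtain ⟨N, hN⟩ : ∃ N : ℕ, ∀ w ∈ u, lenN w.1 ≤ N :=
      ⟨u.sup fun w => lenN w.1, fun w hw => Finset.le_sup (f := fun w : {w // Ok A src tgt Q w} =>
        lenN w.1) hw⟩
    have h3 : u.map (Function.Embedding.subtype _) ⊆ KK X A src tgt Q b N := by
      intro w hw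
      rw [Finset.mem_map] at hw
      obtain ⟨w', hw', rfl⟩ := hw
      exact (mem_KK hb).2 ⟨w'.2, hN w' hw'⟩
    have h5 := avg2 hZ hC h0 hb g hC₀0 hg'
      (fun e u => ‖z e‖ ^ u.length + (0 : ℝ) ^ u.length * fac Z M κ u)
      (fun e u => add_nonneg (pow_nonneg (norm_nonneg _) _)
        (mul_nonneg (pow_nonneg le_rfl _) (fac_nonneg _ _ _))) N _ h3
    rw [sum_map] at h5
    refine le_trans (sum_le_sum fun w _ => ?_) (h5.trans ?_)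
    · rw [norm_mul, norm_mul, Complex.norm_real, Real.norm_of_nonneg (Wt_mem hh _).1]
      refine mul_le_mul_of_nonneg_left ((mul_le_of_le_one_left (norm_nonneg _)
        (Wt_mem hh _).2).trans ?_) (norm_nonneg _)
      unfold mon
      rw [norm_prod]
      refine prod_le_prod (fun e _ => norm_nonneg _) fun e _ => ?_
      rw [norm_pow, wlk_len]
      have : 0 ≤ (0 : ℝ) ^ ((w.1.2 e).length + 1) * fac Z M κ (wlk src w.1 e) :=
        mul_nonneg (pow_nonneg le_rfl _) (fac_nonneg _ _ _)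
      exact le_add_of_nonneg_right this
    · refine mul_le_mul_of_nonneg_left (mul_le_mul_of_nonneg_left ?_ (by positivity)) hC₀0
      refine prod_le_prod (fun e _ => sum_nonneg fun n _ => sum_nonneg fun u _ =>
        mul_nonneg (by positivity) (add_nonneg (pow_nonneg (norm_nonneg _) _)
          (mul_nonneg (pow_nonneg le_rfl _) (fac_nonneg _ _ _)))) fun e _ => ?_
      exact hE e ‖z e‖ 0 (norm_nonneg _) le_rfl le_rfl (by rw [mul_zero]; exact h20) N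
  -- convergence of the polynomials
  have hlim : ∀ z : Fin k → ℂ, (∀ e, μ * ‖z e‖ < 1) → Tendsto (fun N => P N z) atTop
      (𝓝 (∑' w : {w // Ok A src tgt Q w}, g w.1.1 * (((Wt h w.1 : ℝ) : ℂ) * mon z w.1))) := by
    intro z hz
    rw [Metric.tendsto_atTop]
    intro ε hε
    obtain ⟨u, hu⟩ := Metric.tendsto_atTop.1 (hsum z hz).hasSum (ε / 2) (by linarith)
    refine ⟨u.sup fun w => lenN w.1, fun N hN => ?_⟩
    rw [dist_eq_norm]
    refine lt_of_le_of_lt (hP3 N z _ (ε / 2) (by linarith) fun T hT1 hT2 => ?_) (by linarith)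
    have h1 : u ≤ Finset.subtype (fun w => Ok A src tgt Q w) T := by
      intro w hw
      rw [Finset.mem_subtype]
      refine hT2 (lenN w.1) ?_ ((mem_KN hb).2 ⟨w.2, rfl⟩)
      exact le_trans (Finset.le_sup (f := fun w : {w // Ok A src tgt Q w} => lenN w.1) hw) hN
    have h2 := hu _ h1
    rw [Finset.sum_subtype_of_mem (fun w => g w.1 * (((Wt h w : ℝ) : ℂ) * mon z w)) hT1,
      dist_eq_norm] at h2
    exact h2.le
  have hDopen : IsOpen {z : ℂ | μ * ‖z‖ < 1} := isOpen_lt (by fun_prop) continuous_const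
  obtain ⟨F, hF1, hF2⟩ := vitk (k := k) hO1 hO2 hDopen ⟨0, by simp⟩ (fun z hz => hO3 z hz) P hP1 hbd
    (fun z hz => ⟨_, hlim z hz⟩)
  refine ⟨F, hF1, fun z hz => ?_⟩
  have h1 := tendsto_nhds_unique (hF2 z fun e => hO3 _ (hz e)) (hlim z hz)
  rw [h1]
  exact (hsum z hz).hasSum

end

end Pool.Agent.U198.NW
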