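import Pool.Agent.N169.EG.Win
import Pool.Agent.N929.EG.Two

/-!
# Networks of self-avoiding strands: the system of local moves
-/

set_option autoImplicit false
set_option linter.unusedVariables false

namespace Pool.Agent.U198.NW

open Finset Filter Topology Pool.Agent.N929.EG Pool.Agent.N169.EG
open scoped Classical

noncomputable section

/-- positions of the vertices and lists of the interior points of the strands -/
abbrev Net (Ver : Type) (p k : ℕ) := (Fin p → Ver) × (Fin k → List Ver)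

variable {Ver : Type} {p k : ℕ} {A : Ver → Ver → Prop}

/-- `x` is a point of the network -/
def In (x : Ver) (N : Net Ver p k) : Prop := (∃ j, N.1 j = x) ∨ ∃ e, x ∈ N.2 e

/-- `I` is the list of the interior points of a path from `a` to `b` -/
def Joins (A : Ver → Ver → Prop) (a b : Ver) (I : List Ver) : Prop :=
  I.IsChain A ∧ (∀ x, I.head? = some x → A a x) ∧ (∀ x, I.getLast? = some x → A x b) ∧
    (I = [] → A a b)

/-- networks -/
structure Ok (A : Ver → Ver → Prop) (src tgt : Fin k → Fin p) (Q : Net Ver p k → Prop)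
    (N : Net Ver p k) : Prop where
  join : ∀ e, Joins A (N.1 (src e)) (N.1 (tgt e)) (N.2 e)
  nod : ∀ e, (N.2 e).Nodup
  dis : ∀ e e', e ≠ e' → ∀ x ∈ N.2 e, x ∉ N.2 e'
  ver : ∀ e j, N.1 j ∉ N.2 e
  q : Q N

/-- `Q` does not depend on the strands with at least two interior points -/
def Ins (Q : Net Ver p k → Prop) : Prop :=
  ∀ (v : Fin p → Ver) (I : Fin k → List Ver) (e : Fin k) (J : List Ver), 2 ≤ (I e).length →
    2 ≤ J.length → Q (v, I) → Q (v, Function.update I e J)

/-- a possible move -/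
def FreeN (U U' : List Ver) (N : Net Ver p k) : Prop :=
  (∃ e, U <:+: N.2 e) ∧ ∀ x ∈ U', x ∉ U → ¬ In x N

/-- the move -/
def repN (N : Net Ver p k) (U U' : List Ver) : Net Ver p k := (N.1, fun e => rep (N.2 e) U U')

theorem noop {U U' w : List Ver} (h : ¬ U <:+: w) : rep w U U' = w := by
  unfold rep
  rw [dif_neg]
  rintro ⟨L, R, e⟩
  exact h ⟨L, R, e.symm⟩

theorem ends {U U' : List Ver} (h : Pair A U U') : ∃ x, x ∈ U ∧ x ∈ U' := by
  obtain ⟨⟨p, r, X, X', h1, h2, -, -⟩, -⟩ := h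
  exact ⟨p, by rw [h1]; simp, by rw [h2]; simp⟩

variable {src tgt : Fin k → Fin p} {Q : Net Ver p k → Prop}

theorem walk_of {N : Net Ver p k} (hN : Ok A src tgt Q N) {e : Fin k} (he : N.2 e ≠ []) :
    ∃ o, Walk o A (N.2 e) := by
  obtain ⟨o, w0, hw⟩ := List.exists_cons_of_ne_nil he
  exact ⟨o, by rw [hw]; rfl, hN.nod e, (hN.join e).1⟩

theorem infix_ne {U w : List Ver} (hU : U ≠ []) (h : U <:+: w) : w ≠ [] := by
  rintro rfl
  rw [List.infix_nil] at h
  exact hU h

/-- everything about one move -/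
theorem allN (hQ : Ins Q) {U U' : List Ver} (h : Pair A U U') {N : Net Ver p k}
    (hN : Ok A src tgt Q N) (hf : FreeN U U' N) :
    ∃ e L R, N.2 e = L ++ U ++ R ∧ repN N U U' = (N.1, Function.update N.2 e (L ++ U' ++ R)) ∧
      Ok A src tgt Q (repN N U U') ∧ FreeN U' U (repN N U U') ∧
      repN (repN N U U') U' U = N := by
  obtain ⟨⟨e, he⟩, hf2⟩ := hf
  have hU := ne_nil h
  have hU' := ne_nil h.symm
  obtain ⟨o, hW⟩ := walk_of hN (infix_ne hU he)
  have hfree : Free U U' (N.2 e) := ⟨he, fun x hx hxU hc => hf2 x hx hxU (Or.inr ⟨e, hc⟩)⟩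
  obtain ⟨L, R, h1, h2, h3, h4, h5⟩ := rep_all h hW hfree
  have hlast := last_rep h hW hfree
  obtain ⟨x0, hx0, hx0'⟩ := ends h
  have hx0w : x0 ∈ N.2 e := he.subset hx0
  have hno : ∀ e', e' ≠ e → rep (N.2 e') U U' = N.2 e' := fun e' he' =>
    noop fun hc => hN.dis e e' (Ne.symm he') x0 hx0w (hc.subset hx0)
  have hno' : ∀ e', e' ≠ e → rep (N.2 e') U' U = N.2 e' := fun e' he' =>
    noop fun hc => hN.dis e e' (Ne.symm he') x0 hx0w (hc.subset hx0')
  have e1 : repN N U U' = (N.1, Function.update N.2 e (L ++ U' ++ R)) := by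
    unfold repN
    congr 1
    funext e'
    rcases eq_or_ne e' e with rfl | hne
    · rw [Function.update_self, h2]
    · rw [Function.update_of_ne hne, hno e' hne]
  have hnew : ∀ x ∈ L ++ U' ++ R, x ∈ N.2 e ∨ ¬ In x N := by
    intro x hx
    rw [List.mem_append, List.mem_append] at hx
    rcases hx with (hx | hx) | hx
    · left; rw [h1]; simp [hx]
    · by_cases hxU : x ∈ U
      · left; exact he.subset hxU
      · right; exact hf2 x hx hxU
    · left; rw [h1]; simp [hx]
  have hlen : 2 ≤ (N.2 e).length := (two_le h).trans he.length_le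
  have hlen' : 2 ≤ (L ++ U' ++ R).length := by
    have := two_le h.symm
    simp only [List.length_append]
    omega
  refine ⟨e, L, R, h1, e1, ?_, ?_, ?_⟩
  · rw [e1]
    refine ⟨fun e' => ?_, fun e' => ?_, fun e' e'' hne x hx hx' => ?_, fun e' j hc => ?_, ?_⟩
    · rcases eq_or_ne e' e with rfl | hne
      · simp only [Function.update_self]
        obtain ⟨j1, j2, j3, j4⟩ := hN.join e'
        refine ⟨h3.2.2, fun x hx => ?_, fun x hx => ?_, fun hc => ?_⟩
        · rw [h3.1] at hx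
          exact j2 x (by rw [hW.1]; exact hx)
        · rw [← h2, hlast] at hx
          exact j3 x hx
        · rw [hc] at hlen'
          simp at hlen'
      · simp only [Function.update_of_ne hne]
        exact hN.join e'
    · rcases eq_or_ne e' e with rfl | hne
      · simp only [Function.update_self]
        exact h3.2.1
      · simp only [Function.update_of_ne hne]
        exact hN.nod e'
    · rcases eq_or_ne e' e with rfl | h6
      · simp only [Function.update_self] at hx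
        simp only [Function.update_of_ne hne.symm] at hx'
        rcases hnew x hx with h7 | h7
        · exact hN.dis _ _ hne x h7 hx'
        · exact h7 (Or.inr ⟨e'', hx'⟩)
      · simp only [Function.update_of_ne h6] at hx
        rcases eq_or_ne e'' e with rfl | h8
        · simp only [Function.update_self] at hx'
          rcases hnew x hx' with h7 | h7
          · exact hN.dis _ _ hne x hx h7
          · exact h7 (Or.inr ⟨e', hx⟩)
        · simp only [Function.update_of_ne h8] at hx'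
          exact hN.dis _ _ hne x hx hx'
    · rcases eq_or_ne e' e with rfl | hne
      · simp only [Function.update_self] at hc
        rcases hnew _ hc with h7 | h7
        · exact hN.ver _ _ h7
        · exact h7 (Or.inl ⟨j, rfl⟩)
      · simp only [Function.update_of_ne hne] at hc
        exact hN.ver _ _ hc
    · exact hQ N.1 N.2 e _ hlen hlen' hN.q
  · rw [e1]
    refine ⟨⟨e, ?_⟩, fun x hx hxU hc => ?_⟩
    · simp only [Function.update_self]
      exact h4.1
    · rcases hc with ⟨j, hj⟩ | ⟨e', he'⟩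
      · simp only at hj
        exact hN.ver e j (by rw [hj]; exact he.subset hx)
      · rcases eq_or_ne e' e with rfl | hne
        · simp only [Function.update_self] at he'
          exact h4.2 x hx hxU he'
        · simp only [Function.update_of_ne hne] at he'
          exact hN.dis _ _ hne x he' (he.subset hx)
  · rw [e1]
    unfold repN
    refine Prod.ext rfl ?_
    funext e'
    rcases eq_or_ne e' e with rfl | hne
    · simp only [Function.update_self]
      exact h5
    · simp only [Function.update_of_ne hne]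
      exact hno' e' hne

/-- a move does not influence the moves at other places -/
theorem keepN (hQ : Ins Q) {U U' V V' : List Ver} (h : Pair A U U') (hV : V ≠ [])
    {N : Net Ver p k} (hN : Ok A src tgt Q N) (hf : FreeN U U' N)
    (hd : ∀ x ∈ U ++ U', x ∉ V ++ V') (hg : FreeN V V' N) : FreeN V V' (repN N U U') := by
  obtain ⟨e, L, R, h1, h2, -, -, -⟩ := allN hQ h hN hf
  obtain ⟨⟨e', he'⟩, g2⟩ := hg
  rw [h2]
  constructor
  · refine ⟨e', ?_⟩
    rcases eq_or_ne e' e with rfl | hne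
    · simp only [Function.update_self]
      refine (keep h hV ⟨?_, fun x hx hxV hc => ?_⟩ hd).1
      · rw [← h1]; exact he'
      · exact g2 x hx hxV (Or.inr ⟨e', by rw [h1]; exact hc⟩)
    · simp only [Function.update_of_ne hne]
      exact he'
  · rintro x hx hxV (⟨j, hj⟩ | ⟨e'', he''⟩)
    · exact g2 x hx hxV (Or.inl ⟨j, hj⟩)
    · rcases eq_or_ne e'' e with rfl | hne
      · simp only [Function.update_self] at he''
        rw [List.mem_append, List.mem_append] at he''
        rcases he'' with (h3 | h3) | h3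
        · exact g2 x hx hxV (Or.inr ⟨e'', by rw [h1]; simp [h3]⟩)
        · exact hd x (List.mem_append_right _ h3) (List.mem_append_right _ hx)
        · exact g2 x hx hxV (Or.inr ⟨e'', by rw [h1]; simp [h3]⟩)
      · simp only [Function.update_of_ne hne] at he''
        exact g2 x hx hxV (Or.inr ⟨e'', he''⟩)

theorem keepN_iff (hQ : Ins Q) {U U' V V' : List Ver} (h : Pair A U U') (hV : V ≠ [])
    {N : Net Ver p k} (hN : Ok A src tgt Q N) (hf : FreeN U U' N)
    (hd : ∀ x ∈ U ++ U', x ∉ V ++ V') : FreeN V V' (repN N U U') ↔ FreeN V V' N := by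
  refine ⟨fun hg => ?_, keepN hQ h hV hN hf hd⟩
  obtain ⟨e, L, R, h1, h2, h3, h4, h5⟩ := allN hQ h hN hf
  have hd' : ∀ x ∈ U' ++ U, x ∉ V ++ V' := fun x hx =>
    hd x (by rw [List.mem_append] at hx ⊢; exact hx.symm)
  have := keepN hQ h.symm hV h3 h4 hd' hg
  rwa [h5] at this

/-- one strand, the other window is elsewhere -/
theorem rep_other {o : Ver} {U U' V w : List Ver} (h : Pair A U U') (hW : Walk o A w)
    (hf : Free U U' w) (hV : V ≠ []) (hVw : ¬ V <:+: w) (hd : ∀ x ∈ U', x ∉ V) :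
    ¬ V <:+: rep w U U' := by
  obtain ⟨L, R, h1, h2, -, -, -⟩ := rep_all h hW hf
  obtain ⟨⟨a, r, X, X', g1, g2, -, -⟩, -⟩ := h
  rw [h2, g2]
  intro hc
  apply hVw
  rw [h1, g1]
  exact infix_keep (X := X') hV hc (hd a (by rw [g2]; simp)) fun x hx => hd x (by rw [g2]; simp [hx])

/-- two moves commute -/
theorem commN {U U' V V' : List Ver} (hU : Pair A U U') (hV : Pair A V V') {N : Net Ver p k}
    (hN : Ok A src tgt Q N) (fU : FreeN U U' N) (fV : FreeN V V' N)
    (hd : ∀ x ∈ U ++ U', x ∉ V ++ V') :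
    repN (repN N U U') V V' = repN (repN N V V') U U' := by
  unfold repN
  refine Prod.ext rfl ?_
  funext e
  simp only
  have hfr : ∀ {U U' : List Ver}, FreeN U U' N → U <:+: N.2 e → Free U U' (N.2 e) :=
    fun hf h => ⟨h, fun x hx hxU hc => hf.2 x hx hxU (Or.inr ⟨e, hc⟩)⟩
  by_cases hUw : U <:+: N.2 e
  · obtain ⟨o, hW⟩ := walk_of hN (infix_ne (ne_nil hU) hUw)
    by_cases hVw : V <:+: N.2 e
    · exact comm_rep hW hU hV (hfr fU hUw) (hfr fV hVw) hd
    · rw [noop hVw]
      refine noop (rep_other hU hW (hfr fU hUw) (ne_nil hV) hVw fun x hx hc => ?_)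
      exact hd x (List.mem_append_right _ hx) (List.mem_append_left _ hc)
  · by_cases hVw : V <:+: N.2 e
    · obtain ⟨o, hW⟩ := walk_of hN (infix_ne (ne_nil hV) hVw)
      rw [noop hUw]
      refine (noop (rep_other hV hW (hfr fV hVw) (ne_nil hU) hUw fun x hx hc => ?_)).symm
      exact hd x (List.mem_append_left _ hc) (List.mem_append_right _ hx)
    · rw [noop hUw, noop hVw, noop hUw]

/-! ### the system -/

variable {X : Geo Ver} (Z : Rul X A)

/-- the number of edges -/
def lenN (N : Net Ver p k) : ℕ := ∑ e, ((N.2 e).length + 1)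

/-- the interior points -/
def sites (N : Net Ver p k) : Finset Ver := univ.biUnion fun e => (N.2 e).toFinset

/-- the networks with `n` edges -/
def KN (X : Geo Ver) (A : Ver → Ver → Prop) (src tgt : Fin k → Fin p) (Q : Net Ver p k → Prop)
    (b n : ℕ) : Finset (Net Ver p k) :=
  (Fintype.piFinset (fun _ : Fin p => X.bx X.o (b * n)) ×ˢ
    Fintype.piFinset (fun _ : Fin k => (range (n + 1)).biUnion (lists (X.bx X.o (b * n))))).filter
    (fun N => Ok A src tgt Q N ∧ lenN N = n)

/-- all points are near the root -/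
def Bdd (X : Geo Ver) (A : Ver → Ver → Prop) (src tgt : Fin k → Fin p)
    (Q : Net Ver p k → Prop) (b : ℕ) : Prop :=
  ∀ N, Ok A src tgt Q N → (∀ j, N.1 j ∈ X.bx X.o (b * lenN N)) ∧
    ∀ e, ∀ x ∈ N.2 e, x ∈ X.bx X.o (b * lenN N)

theorem len_le (N : Net Ver p k) (e : Fin k) : (N.2 e).length + 1 ≤ lenN N := by
  unfold lenN
  exact single_le_sum (f := fun e => (N.2 e).length + 1) (fun _ _ => Nat.zero_le _) (mem_univ e)

theorem mem_KN {b : ℕ} (hb : Bdd X A src tgt Q b) {n : ℕ} {N : Net Ver p k} :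
    N ∈ KN X A src tgt Q b n ↔ Ok A src tgt Q N ∧ lenN N = n := by
  unfold KN
  rw [mem_filter]
  refine ⟨fun h => h.2, fun h => ⟨?_, h⟩⟩
  obtain ⟨h1, h2⟩ := hb N h.1
  rw [h.2] at h1 h2
  rw [mem_product, Fintype.mem_piFinset, Fintype.mem_piFinset]
  refine ⟨h1, fun e => ?_⟩
  rw [mem_biUnion]
  have := len_le N e
  exact ⟨(N.2 e).length, by rw [mem_range]; omega, mem_lists.2 ⟨rfl, h2 e⟩⟩

/-- upward moves -/
def SN (N : Net Ver p k) : Finset (List Ver × List Ver) :=
  ((sites N).biUnion (cand Z)).filter (fun q => Z.T q.1 q.2 ∧ FreeN q.1 q.2 N)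

/-- downward moves -/
def BN (N : Net Ver p k) : Finset (List Ver × List Ver) :=
  ((sites N).biUnion (cand Z)).filter (fun q => Z.T q.1 q.2 ∧ FreeN q.2 q.1 N)

theorem mem_sites {N : Net Ver p k} {x : Ver} : x ∈ sites N ↔ ∃ e, x ∈ N.2 e := by
  unfold sites
  simp

theorem mem_SN {N : Net Ver p k} {q : List Ver × List Ver} :
    q ∈ SN Z N ↔ Z.T q.1 q.2 ∧ FreeN q.1 q.2 N := by
  unfold SN
  rw [Finset.mem_filter]
  constructor
  · exact fun h => h.2
  · rintro ⟨h1, h2⟩
    refine ⟨?_, h1, h2⟩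
    obtain ⟨a, U0, h3⟩ := List.exists_cons_of_ne_nil (ne_nil (Z.pair _ _ h1))
    obtain ⟨⟨e, he⟩, -⟩ := h2
    rw [Finset.mem_biUnion]
    exact ⟨a, mem_sites.2 ⟨e, he.subset (by rw [h3]; simp)⟩, mem_cand Z h1 (by rw [h3]; simp)⟩

theorem mem_BN {N : Net Ver p k} {q : List Ver × List Ver} :
    q ∈ BN Z N ↔ Z.T q.1 q.2 ∧ FreeN q.2 q.1 N := by
  unfold BN
  rw [Finset.mem_filter]
  constructor
  · exact fun h => h.2
  · rintro ⟨h1, h2⟩
    refine ⟨?_, h1, h2⟩
    obtain ⟨a, U0, h3⟩ := List.exists_cons_of_ne_nil (ne_nil (Z.pair _ _ h1).symm)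
    obtain ⟨⟨e, he⟩, -⟩ := h2
    rw [Finset.mem_biUnion]
    exact ⟨a, mem_sites.2 ⟨e, he.subset (by rw [h3]; simp)⟩, mem_cand Z h1 (by rw [h3]; simp)⟩

theorem len_rep {N : Net Ver p k} {e : Fin k} {U U' L R : List Ver} {s : ℕ}
    (h1 : N.2 e = L ++ U ++ R) (hs : U'.length = U.length + s) :
    lenN ((N.1, Function.update N.2 e (L ++ U' ++ R)) : Net Ver p k) = lenN N + s := by
  unfold lenN
  simp only
  rw [← Finset.add_sum_erase univ _ (mem_univ e),
    ← Finset.add_sum_erase univ (fun e => (N.2 e).length + 1) (mem_univ e)]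
  have e1 : ∑ x ∈ univ.erase e, ((Function.update N.2 e (L ++ U' ++ R) x).length + 1) =
      ∑ x ∈ univ.erase e, ((N.2 x).length + 1) := by
    refine sum_congr rfl fun x hx => ?_
    rw [Function.update_of_ne (ne_of_mem_erase hx)]
  rw [e1, Function.update_self, h1]
  simp only [List.length_append]
  omega

theorem mem_UUN {b : ℕ} (hb : Bdd X A src tgt Q b) {n M : ℕ} {N : Net Ver p k} {q : List Ver × List Ver}
    (hN : N ∈ KN X A src tgt Q b n) (hn : n ≤ M) (hT : Z.T q.1 q.2) {a : Ver} {e : Fin k}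
    (ha : a ∈ q.1 ++ q.2) (hae : a ∈ N.2 e) : q ∈ UU Z (b * M) := by
  unfold UU
  rw [Finset.mem_filter, Finset.mem_biUnion]
  rw [mem_KN hb] at hN
  have h1 := (hb N hN.1).2 e a hae
  rw [hN.2] at h1
  exact ⟨⟨a, X.mono _ _ _ (Nat.mul_le_mul_left b hn) h1, mem_cand Z hT ha⟩, hT⟩

/-- **the system of local moves of networks** -/
def sysN {b : ℕ} (hQ : Ins Q) (hb : Bdd X A src tgt Q b) : TS (Net Ver p k) (List Ver × List Ver) where
  K := KN X A src tgt Q b
  len := lenN
  S := SN Z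
  B := BN Z
  ins N q := repN N q.1 q.2
  rem N q := repN N q.2 q.1
  s := Z.s
  cf := Cf
  d := CC Z
  U := fun M => UU Z (b * M)
  hs := Z.hs
  len_K := fun n N hN => ((mem_KN hb).1 hN).2
  ins_K := by
    rintro n N ⟨U, U'⟩ hN hq
    rw [mem_KN hb] at hN ⊢
    rw [mem_SN] at hq
    obtain ⟨e, L, R, h1, h2, h3, -, -⟩ := allN hQ (Z.pair _ _ hq.1) hN.1 hq.2
    have hl := Z.len _ _ hq.1
    simp only at h1 h2 h3 hl ⊢
    refine ⟨h3, ?_⟩
    rw [h2, len_rep h1 (s := Z.s) (by omega), hN.2]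
  ins_B := by
    rintro n N ⟨U, U'⟩ hN hq
    rw [mem_KN hb] at hN
    rw [mem_SN] at hq
    obtain ⟨e, L, R, h1, h2, h3, h4, -⟩ := allN hQ (Z.pair _ _ hq.1) hN.1 hq.2
    rw [mem_BN]
    exact ⟨hq.1, h4⟩
  rem_ins := by
    rintro n N ⟨U, U'⟩ hN hq
    rw [mem_KN hb] at hN
    rw [mem_SN] at hq
    obtain ⟨e, L, R, h1, h2, h3, h4, h5⟩ := allN hQ (Z.pair _ _ hq.1) hN.1 hq.2
    exact h5
  rem_le := by
    rintro n N ⟨U, U'⟩ hN hq
    rw [mem_KN hb] at hN
    rw [mem_BN] at hq
    obtain ⟨⟨e, he⟩, -⟩ := hq.2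
    have h1 := he.length_le
    have h2 := Z.len _ _ hq.1
    have h3 := len_le N e
    simp only at h1 h2 h3
    omega
  rem_K := by
    rintro n N ⟨U, U'⟩ hN hq
    rw [mem_KN hb] at hN ⊢
    rw [mem_BN] at hq
    obtain ⟨e, L, R, h1, h2, h3, h4, h5⟩ := allN hQ (Z.pair _ _ hq.1).symm hN.1 hq.2
    have hl := Z.len _ _ hq.1
    simp only at h1 h2 h3 h4 h5 hl ⊢
    refine ⟨h3, ?_⟩
    have h6 : lenN N = lenN (repN N U' U) + Z.s := by
      have h7 : (repN N U' U).2 e = L ++ U ++ R := by rw [h2]; simp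
      have h8 := len_rep (N := repN N U' U) (e := e) (U' := U') (s := Z.s) h7 (by omega)
      rw [← h8]
      congr 1
      rw [h2]
      simp only
      rw [Function.update_idem, ← h1, Function.update_eq_self]
    omega
  rem_S := by
    rintro n N ⟨U, U'⟩ hN hq
    rw [mem_KN hb] at hN
    rw [mem_BN] at hq
    obtain ⟨e, L, R, h1, h2, h3, h4, h5⟩ := allN hQ (Z.pair _ _ hq.1).symm hN.1 hq.2
    rw [mem_SN]
    exact ⟨hq.1, h4⟩
  ins_rem := by
    rintro n N ⟨U, U'⟩ hN hq
    rw [mem_KN hb] at hN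
    rw [mem_BN] at hq
    obtain ⟨e, L, R, h1, h2, h3, h4, h5⟩ := allN hQ (Z.pair _ _ hq.1).symm hN.1 hq.2
    exact h5
  disj := by
    rintro n N ⟨U, U'⟩ hN hq hq'
    rw [mem_SN] at hq
    rw [mem_BN] at hq'
    obtain ⟨⟨a, r, Y, Y', h1, h2, h3, h4⟩, -⟩ := Z.pair _ _ hq.1
    have hl := Z.len _ _ hq.1
    have hs := Z.hs
    simp only at h1 h2 h3 h4 hl
    have h5 : Y' ≠ [] := by
      rintro rfl
      rw [h1, h2] at hl
      simp only [List.length_cons, List.length_append, List.length_nil, List.nil_append] at hl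
      omega
    obtain ⟨x, Y0, h6⟩ := List.exists_cons_of_ne_nil h5
    have h7 : x ∈ U' := by rw [h2, h6]; simp
    obtain ⟨⟨e, he⟩, -⟩ := hq'.2
    exact hq.2.2 x h7 (h4 x (by rw [h6]; simp)) (Or.inr ⟨e, he.subset h7⟩)
  cf_symm := by
    rintro q q' ⟨x, h1, h2⟩
    exact ⟨x, h2, h1⟩
  ins_S := by
    rintro n N ⟨U, U'⟩ ⟨V, V'⟩ hN hq hcf
    rw [mem_KN hb] at hN
    rw [mem_SN] at hq
    have hd : ∀ x ∈ U ++ U', x ∉ V ++ V' := fun x hx hc => hcf ⟨x, hx, hc⟩
    rw [mem_SN, mem_SN]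
    refine and_congr_right fun g1 => ?_
    exact keepN_iff hQ (Z.pair _ _ hq.1) (ne_nil (Z.pair _ _ g1)) hN.1 hq.2 hd
  ins_BB := by
    rintro n N ⟨U, U'⟩ ⟨V, V'⟩ hN hq hcf
    rw [mem_KN hb] at hN
    rw [mem_SN] at hq
    have hd : ∀ x ∈ U ++ U', x ∉ V' ++ V := fun x hx hc =>
      hcf ⟨x, hx, by rw [List.mem_append] at hc ⊢; exact hc.symm⟩
    rw [mem_BN, mem_BN]
    refine and_congr_right fun g1 => ?_
    exact keepN_iff hQ (Z.pair _ _ hq.1) (ne_nil (Z.pair _ _ g1).symm) hN.1 hq.2 hd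
  ins_comm := by
    rintro n N ⟨U, U'⟩ ⟨V, V'⟩ hN hq hq' hcf
    rw [mem_KN hb] at hN
    rw [mem_SN] at hq hq'
    exact commN (Z.pair _ _ hq.1) (Z.pair _ _ hq'.1) hN.1 hq.2 hq'.2
      fun x hx hc => hcf ⟨x, hx, hc⟩
  S_U := by
    intro n M N hN hn
    constructor
    · intro q hq
      rw [mem_SN] at hq
      obtain ⟨a, U0, h3⟩ := List.exists_cons_of_ne_nil (ne_nil (Z.pair _ _ hq.1))
      obtain ⟨⟨e, he⟩, -⟩ := hq.2
      exact mem_UUN Z hb hN hn hq.1 (a := a) (by rw [h3]; simp) (he.subset (by rw [h3]; simp))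
    · intro q hq
      rw [mem_BN] at hq
      obtain ⟨a, U0, h3⟩ := List.exists_cons_of_ne_nil (ne_nil (Z.pair _ _ hq.1).symm)
      obtain ⟨⟨e, he⟩, -⟩ := hq.2
      exact mem_UUN Z hb hN hn hq.1 (a := a) (by rw [h3]; simp) (he.subset (by rw [h3]; simp))
  deg := by
    intro M q hq
    have hT : Z.T q.1 q.2 := by
      unfold UU at hq
      exact (Finset.mem_filter.1 hq).2
    obtain ⟨a, U0, h3⟩ := List.exists_cons_of_ne_nil (ne_nil (Z.pair _ _ hT))
    refine (Finset.card_le_card ?_).trans (card_near Z a)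
    intro q' hq'
    rw [Finset.mem_filter] at hq'
    obtain ⟨h4, x, h5, h6⟩ := hq'
    have hT' : Z.T q'.1 q'.2 := by
      unfold UU at h4
      exact (Finset.mem_filter.1 h4).2
    exact mem_near Z hT hT' (p := a) (x := x) (by rw [h3]; simp) h5 h6

end

end Pool.Agent.U198.NW
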